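import Pool.Agent.H34.TG.Bas

/-!
# [H34 TG] the girth of the graph of the cosets of two subgroups
-/

set_option autoImplicit false

namespace Pool.Agent.H34.TG

variable {G : Type} [Group G]

theorem Gir.mono {P Q : Subgroup G} {m m' : ℕ} (h : Gir P Q m) (hm : m' ≤ m) : Gir P Q m' :=
  fun x y k h0 h1 hx hy => h x y k h0 (lt_of_lt_of_le h1 hm) hx hy

/-- there are no double edges -/
theorem gir_two (P Q : Subgroup G) : Gir P Q 2 := by
  intro x y k h0 h1 hx hy h
  have hk : k = 1 := by omega
  subst hk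
  have h2 : x 0 * y 0 = 1 := by
    rw [← h]
    show x 0 * y 0 = 1 * (x 0 * y 0)
    rw [one_mul]
  have h3 : x 0 = (y 0)⁻¹ := eq_inv_of_mul_eq_one_left h2
  exact (hx 0 zero_lt_one).2 (by rw [h3]; exact inv_mem (hy 0 zero_lt_one).1)

/-- the product of the shifted word -/
theorem alp_shift (x y : ℕ → G) (k : ℕ) : x 0 * alp y (fun r => x (r + 1)) k = alp x y k * x k := by
  induction k with
  | zero => show x 0 * 1 = 1 * x 0; rw [mul_one, one_mul]
  | succ k ih =>
    show x 0 * (alp y (fun r => x (r + 1)) k * (y k * x (k + 1))) = alp x y k * (x k * y k) * x (k + 1)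
    rw [← mul_assoc, ih]
    simp only [mul_assoc]

theorem alp_congr {x y x' y' : ℕ → G} {k : ℕ} (hx : ∀ r < k, x r = x' r) (hy : ∀ r < k, y r = y' r) :
    alp x y k = alp x' y' k := by
  induction k with
  | zero => rfl
  | succ k ih =>
    show alp x y k * (x k * y k) = alp x' y' k * (x' k * y' k)
    rw [ih (fun r hr => hx r (by omega)) (fun r hr => hy r (by omega)), hx k (by omega), hy k (by omega)]

theorem Gir.symm {P Q : Subgroup G} {m : ℕ} (h : Gir P Q m) : Gir Q P m := by
  intro x y k h0 h1 hx hy he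
  obtain ⟨k, rfl⟩ : ∃ l, k = l + 1 := ⟨k - 1, by omega⟩
  -- the cyclic shift `y 0, x 1, y 1, …, x k, y k, x 0`
  have h2 := alp_shift x y k
  have h3 : alp x y (k + 1) = alp x y k * x k * y k := by
    show alp x y k * (x k * y k) = _
    rw [mul_assoc]
  rw [h3, ← h2, mul_assoc] at he
  -- `x 0 * (alp y x' k * y k) = 1`
  let x' : ℕ → G := fun r => if r = k then x 0 else x (r + 1)
  refine h y x' (k + 1) h0 h1 hy ?_ ?_
  · intro r hr
    by_cases hrk : r = k
    · have : x' r = x 0 := if_pos hrk
      rw [this]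
      exact hx 0 (by omega)
    · have : x' r = x (r + 1) := if_neg hrk
      rw [this]
      exact hx (r + 1) (by omega)
  · have e1 : alp y x' (k + 1) = alp y x' k * (y k * x' k) := rfl
    have e2 : x' k = x 0 := if_pos rfl
    have e3 : alp y x' k = alp y (fun r => x (r + 1)) k := alp_congr (fun _ _ => rfl) (fun r hr => if_neg (by omega))
    rw [e1, e2, e3, ← mul_assoc]
    have h4 : alp y (fun r => x (r + 1)) k * y k = (x 0)⁻¹ := (inv_eq_of_mul_eq_one_right he).symm
    rw [h4, inv_mul_cancel]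

theorem alp_map {G' : Type} [Group G'] (f : G →* G') (x y : ℕ → G) (k : ℕ) :
    f (alp x y k) = alp (fun r => f (x r)) (fun r => f (y r)) k := by
  induction k with
  | zero => exact map_one f
  | succ k ih =>
    show f (alp x y k * (x k * y k)) = alp _ _ k * _
    rw [map_mul, map_mul, ih]

/-- the girth in a subgroup -/
theorem Gir.subgroupOf {P Q : Subgroup G} {m : ℕ} (h : Gir P Q m) (K : Subgroup G) :
    Gir (P.subgroupOf K) (Q.subgroupOf K) m := by
  intro x y k h0 h1 hx hy he
  refine h (fun r => (x r : G)) (fun r => (y r : G)) k h0 h1 (fun r hr => hx r hr) (fun r hr => hy r hr) ?_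
  have := alp_map K.subtype x y k
  rw [he] at this
  exact this.symm.trans (map_one _)

theorem alp_mem {K P Q : Subgroup G} (hP : P ≤ K) (hQ : Q ≤ K) (x y : ℕ → G) (k : ℕ) (hx : ∀ r < k, x r ∈ P)
    (hy : ∀ r < k, y r ∈ Q) : alp x y k ∈ K := by
  induction k with
  | zero => exact one_mem _
  | succ k ih =>
    exact mul_mem (ih (fun r hr => hx r (by omega)) (fun r hr => hy r (by omega)))
      (mul_mem (hP (hx k (by omega))) (hQ (hy k (by omega))))

theorem gir_of_subgroupOf {P Q K : Subgroup G} {m : ℕ} (hP : P ≤ K) (hQ : Q ≤ K)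
    (h : Gir (P.subgroupOf K) (Q.subgroupOf K) m) : Gir P Q m := by
  intro x y k h0 h1 hx hy he
  classical
  let x' : ℕ → K := fun r => if hr : r < k then ⟨x r, hP (hx r hr).1⟩ else 1
  let y' : ℕ → K := fun r => if hr : r < k then ⟨y r, hQ (hy r hr).1⟩ else 1
  have ex : ∀ r, r < k → ((x' r : K) : G) = x r := fun r hr => by
    show ((if hr : r < k then (⟨x r, hP (hx r hr).1⟩ : K) else 1 : K) : G) = x r
    rw [dif_pos hr]
  have ey : ∀ r, r < k → ((y' r : K) : G) = y r := fun r hr => by
    show ((if hr : r < k then (⟨y r, hQ (hy r hr).1⟩ : K) else 1 : K) : G) = y r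
    rw [dif_pos hr]
  refine h x' y' k h0 h1 (fun r hr => ?_) (fun r hr => ?_) ?_
  · rw [Subgroup.mem_subgroupOf, Subgroup.mem_subgroupOf, ex r hr]
    exact hx r hr
  · rw [Subgroup.mem_subgroupOf, Subgroup.mem_subgroupOf, ey r hr]
    exact hy r hr
  · apply Subtype.ext
    have h2 := alp_map K.subtype x' y' k
    have h3 : alp (fun r => K.subtype (x' r)) (fun r => K.subtype (y' r)) k = alp x y k :=
      alp_congr (fun r hr => ex r hr) (fun r hr => ey r hr)
    rw [h3, he] at h2
    exact h2

end Pool.Agent.H34.TG
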