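import Pool.Agent.H34.TG.Gr
import Pool.Agent.H65.LR.Dih

/-!
# [H34 TG DIH] base case: all other generators commute with `b` and `c`

`M b c ≠ 0`, `M s b = 2` and `M s c = 2` for all `s ≠ b, c`. Let `ρ : Art M →* Art M`, `gen b ↦ gen b`, `gen c ↦ gen c`, the other generators `↦ 1` (`PAG.lift`: the relation
of `i`, `j` is trivial if both are in `{b, c}`; if `i ∉ {b, c}`: `j ∉ {b, c}` gives `alt 1 1 n = alt 1 1 n`; `j ∈ {b, c}`: `M i j = 2`, `alt 1 x 2 = x = alt x 1 2` by `simp [alt]`).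
(1) For `x ∈ ap M {b}ᶜ`: `ρ x = gen c ^ n` for some `n : ℤ` and `x * (ρ x)⁻¹ ∈ ap M {b, c}ᶜ`: induction (`ap_induction` in `INF/Defs`): `gen s`, `s ≠ b, c`: commutes with `gen c`
(`gen_rel` with `M s c = 2`: `alt (gen s) (gen c) 2 = gen s * gen c`); so `x = u * gen c ^ n` with `u ∈ ap M {b, c}ᶜ`, and `gen c` commutes with `ap M {b, c}ᶜ`. If `x ∉ ap M {c}ᶜ` then `n ≠ 0`
(`n = 0`: `x = u ∈ ap M {b, c}ᶜ ≤ ap M {c}ᶜ`, `ap_mono`). The same for `y ∈ ap M {c}ᶜ`: `ρ y = gen b ^ n'`, `n' ≠ 0` if `y ∉ ap M {b}ᶜ`.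
(2) If `alp x y k = 1` then `ρ` (`alp_map` in Gr) gives `alp (gen c ^ n_r) (gen b ^ n'_r) k = 1`, and this is `altz (gen c) (gen b) κ (2 * k)` with `κ (2 r) = n_r`, `κ (2 r + 1) = n'_r` (`altz_succ` twice,
parity of `2 k`, `2 k + 1`); it is not `1` for `0 < 2 k < 2 M c b` (`altz_ne_one`, `M.symmetric`). `Gir (ap M {b}ᶜ) (ap M {c}ᶜ)`: `x r ∈ ap M {b}ᶜ`, `x r ∉ ap M {c}ᶜ`.
-/

set_option autoImplicit false

namespace Pool.Agent.H34.TG

open CoxeterSystem Pool.Agent.H52.PAG Pool.Agent.H75.INF Pool.Agent.H71.DA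

variable {B : Type} (M : CoxeterMatrix B)

private theorem gir_of_gk {G : Type} [Group G] {P Q : Subgroup G} {m : ℕ} (h : Pool.Agent.H65.LR.GK P Q m) :
    Gir P Q m := by
  intro x y k h0 h1 hx hy
  have h2 : ∀ k, ((List.range k).map fun r => (x r, y r)).map (fun z : G × G => z.1 * z.2) =
      (List.range k).map fun r => x r * y r := fun k => by
    rw [List.map_map]
    rfl
  have h3 : ∀ k, (((List.range k).map fun r => (x r, y r)).map (fun z : G × G => z.1 * z.2)).prod = alp x y k := by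
    intro k
    induction k with
    | zero => rfl
    | succ k ih =>
      rw [h2] at ih ⊢
      rw [List.range_succ, List.map_append, List.prod_append, ih]
      simp [alp]
  rw [← h3 k]
  refine h _ ?_ ?_ ?_
  · intro h4
    rw [List.map_eq_nil_iff, List.range_eq_nil] at h4
    omega
  · rwa [List.length_map, List.length_range]
  · intro z hz
    obtain ⟨r, hr, rfl⟩ := List.mem_map.1 hz
    rw [List.mem_range] at hr
    exact ⟨(hx r hr).1, (hx r hr).2, (hy r hr).1, (hy r hr).2⟩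

theorem gir_dih {b c : B} (hbc : b ≠ c) (h0 : M b c ≠ 0) (hb : ∀ s, s ≠ b → s ≠ c → M s b = 2)
    (hc : ∀ s, s ≠ b → s ≠ c → M s c = 2) : Gir (ap M ({b}ᶜ : Set B)) (ap M ({c}ᶜ : Set B)) (M b c) :=
  gir_of_gk (Pool.Agent.H65.LR.gk_factor hbc h0 hb hc)

end Pool.Agent.H34.TG
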