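import Pool.Agent.H34.TG.Bas
import Pool.Agent.H59.DE.Defs

/-!
# [H34 TG] Triangles of subgroups: the action
-/

set_option autoImplicit false

namespace Pool.Agent.H34.TG

open Pool.Agent.H54.CX Pool.Agent.H52.T2

variable {G : Type} [Group G] {H : Fin 3 → Subgroup G}

theorem Adj.smul (g : G) {u v : Vx H} (h : Adj u v) : Adj (g • u) (g • v) := by
  obtain ⟨h1, x, hx, hx'⟩ := h
  exact ⟨h1, g * x, (mem_smul g).2 hx, (mem_smul g).2 hx'⟩

theorem tcx_inv (m : Fin 3 → ℕ) : (tcx H m).Inv G where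
  edge g _ _ h := h.smul g
  tri g _ _ _ h := ⟨h.1.smul g, h.2.1.smul g, h.2.2.smul g⟩
  len _ _ _ _ := rfl

theorem tcx_fin (m : Fin 3 → ℕ) : Pool.Agent.H59.DE.FinCell (tcx H m) kd := by
  intro c hc
  obtain ⟨x, hx⟩ := exists_mem c
  refine (Set.finite_range (fun S : {S : Finset (Fin 3) // S.Nonempty} => vx H S x)).subset ?_
  intro v hv
  have hv : Adj c v := hv
  have h1 : kd c < kd v := by
    have := hv.kd_ne
    omega
  exact ⟨v.1, ((adj_iff (hv.ssub h1)).1 hv x hx).symm⟩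

theorem tcx_bdd (m : Fin 3 → ℕ) : ∃ K : ℕ, ∀ p : Vx H, kd p = 2 → mu m (tp p) ≤ K := by
  refine ⟨max 2 (∑ i, m i), fun p _ => ?_⟩
  exact max_le_max le_rfl (Finset.sum_le_sum_of_subset (Finset.subset_univ _))

theorem mu_singleton {m : Fin 3 → ℕ} {i : Fin 3} (h : 2 ≤ m i) : mu m {i} = m i := by
  unfold mu
  rw [Finset.sum_singleton]
  exact max_eq_right h

end Pool.Agent.H34.TG
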