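import Pool.Agent.H75.INF.Vdl
import Pool.Agent.H75.INF.Kil

/-!
# [H34 TG API] the intersection of two standard parabolic subgroups of an Artin group

`c = cy M K` is the cocycle of `INF/Coc`, `cy_spec : IsCz M K (gen M) (cy M K)`. (1) For `x ∈ ap M L`: `c 1 x ∈ ap M (K ∩ L)`. Induction on `x` (`ap_induction`), also
`toCox M x ∈ par L` (`toCox_mem` in Cyp). `c 1 (x * gen r) = c 1 x * c y (gen r)`, `y = toCox M x`. If `r` is off at `y` the value is `1` (`off`); if it is on: `gen (ltr K y r)`, and
`k = ltr K y r ∈ K` with `mr K y * s_r = s_k * mr K y` (`Mr.step_on`, `simple_ltr`). It remains `k ∈ L`. `y ∈ par L` and `mr K y` is the shortest element of `par K * y`, so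
`mr K y ∈ par L`: `y = ps y * mr y` with `length y = length (ps y) + length (mr y)` (`Mr`/`H8.CDW.Par`: additivity of the length for the shortest element), so concatenating reduced words gives a
reduced word of `y`; all letters of a reduced word of an element of `par L` are in `L` (look for it in `H8/CDW/Par.lean` and `H75/INF/Kil.lean`; `Kil.inter_par`
or `Kil.kil` may give `par K ⊓ par L` directly). So `s_k = mr y * s_r * (mr y)⁻¹ ∈ par L`, hence `k ∈ L` (the same fact for the reduced word `[k]`).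
For `(gen r)⁻¹`: `IsCz.gen_inv_on`, `gen_inv_off` (Cyp) with `on_step`.
(2) For `x ∈ ap M K`: `c 1 x = x` (`cy_base` in Cyp). So `x ∈ ap M K ⊓ ap M L` gives `x ∈ ap M (K ∩ L)`. The other inclusion: `ap_mono`.
-/

set_option autoImplicit false

namespace Pool.Agent.H34.TG

open CoxeterSystem Pool.H8.CDW Pool.Agent.H52.PAG Pool.Agent.H75.INF

variable {B : Type} (M : CoxeterMatrix B)

private theorem simple_mem {W : Type*} [Group W] {M : CoxeterMatrix B} (cs : CoxeterSystem M W) {L : Set B} {k : B}
    (h : cs.simple k ∈ par cs L) : k ∈ L := by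
  obtain ⟨ω, hω, hred, hprod⟩ := (mem_par_iff cs).1 h
  have h1 : ω.length = 1 := by rw [← hred.eq, hprod, cs.length_simple]
  obtain ⟨l, rfl⟩ := List.length_eq_one_iff.1 h1
  rw [cs.wordProd_singleton] at hprod
  have h2 : l = k := simple_inj cs hprod
  rw [← h2]
  exact hω l (by simp)

private theorem mr_mem_par {W : Type*} [Group W] {M : CoxeterMatrix B} (cs : CoxeterSystem M W) (K : Set B) {L : Set B}
    {y : W} (hy : y ∈ par cs L) : mr cs K y ∈ par cs L := by
  have h1 : ps cs (K ∩ L) y ∈ par cs (K ∩ L) := ps_mem cs (K ∩ L) y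
  have h2 : ps cs (K ∩ L) y * mr cs (K ∩ L) y = y := ps_mul_mr cs (K ∩ L) y
  have h3 : mr cs (K ∩ L) y ∈ par cs L := by
    have e : mr cs (K ∩ L) y = (ps cs (K ∩ L) y)⁻¹ * y := by
      rw [eq_inv_mul_iff_mul_eq, h2]
    rw [e]
    exact mul_mem (inv_mem (par_mono cs Set.inter_subset_right h1)) hy
  have h4 : IsL cs K (mr cs (K ∩ L) y) := by
    intro k hk hd
    obtain ⟨α, hα, hred, hprod⟩ := (mem_par_iff cs).1 h3
    rw [← hprod] at hd
    obtain ⟨j, hj, he⟩ := exchange_left cs hred hd
    have h5 : cs.wordProd (α.eraseIdx j) ∈ par cs L :=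
      b1_word_mem cs _ fun i hi => hα i (List.mem_of_mem_eraseIdx hi)
    have h6 : cs.simple k ∈ par cs L := by
      have e : cs.simple k = cs.wordProd (α.eraseIdx j) * (cs.wordProd α)⁻¹ := by
        rw [← he, mul_inv_cancel_right]
      rw [e, hprod]
      exact mul_mem h5 (inv_mem h3)
    rw [hprod] at hd
    exact mr_isL cs (K ∩ L) y k ⟨hk, simple_mem cs h6⟩ hd
  rw [(mr_unique cs (par_mono cs Set.inter_subset_left h1) h4 h2).1]
  exact h3

private theorem ltr_mem {W : Type*} [Group W] {M : CoxeterMatrix B} (cs : CoxeterSystem M W) {K L : Set B}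
    {y : W} (hy : y ∈ par cs L) {r : B} (hr : r ∈ L) (h : On cs K y r) : ltr cs K y r ∈ K ∩ L := by
  obtain ⟨h1, h2, _, _⟩ := step_on cs h
  refine ⟨h1, simple_mem cs ?_⟩
  have h3 := mr_mem_par cs K hy
  have e : cs.simple (ltr cs K y r) = mr cs K y * cs.simple r * (mr cs K y)⁻¹ := by
    rw [h2, mul_inv_cancel_right]
  rw [e]
  exact mul_mem (mul_mem h3 (simple_mem_par cs hr)) (inv_mem h3)

theorem ap_inf (K L : Set B) : ap M K ⊓ ap M L = ap M (K ∩ L) := by
  refine le_antisymm ?_ (le_inf (ap_mono Set.inter_subset_left) (ap_mono Set.inter_subset_right))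
  rintro x ⟨hK, hL⟩
  have hc := cy_spec M K
  have key : cy M K 1 x ∈ ap M (K ∩ L) := by
    refine ap_induction (P := fun x => cy M K 1 x ∈ ap M (K ∩ L)) ?_ ?_ ?_ hL
    · change cy M K 1 1 ∈ ap M (K ∩ L)
      rw [hc.one]
      exact one_mem _
    · intro x hx k hk h
      rw [hc.mul]
      refine mul_mem h ?_
      by_cases ho : On M.toCoxeterSystem K (1 * toCox M x) k
      · rw [hc.on _ k ho]
        refine gen_mem_ap (ltr_mem M.toCoxeterSystem ?_ hk ho)
        rw [one_mul]
        exact toCox_mem hx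
      · rw [hc.off _ k ho]
        exact one_mem _
    · intro x hx k hk h
      rw [hc.mul]
      refine mul_mem h ?_
      by_cases ho : On M.toCoxeterSystem K (1 * toCox M x) k
      · rw [hc.gen_inv_on ho]
        refine inv_mem (gen_mem_ap (ltr_mem M.toCoxeterSystem ?_ hk ho))
        rw [one_mul]
        exact toCox_mem hx
      · rw [hc.gen_inv_off ho]
        exact one_mem _
  rwa [cy_base hK] at key

end Pool.Agent.H34.TG
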