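import Pool.Agent.H34.TG.Defs

/-!
# [H34 TG] Triangles of subgroups: vertices and adjacency
-/

set_option autoImplicit false

namespace Pool.Agent.H34.TG

open Pool.Agent.H54.CX Pool.Agent.H52.T2

variable {G : Type} [Group G] {H : Fin 3 → Subgroup G}

theorem sg_anti {S S' : Finset (Fin 3)} (h : S ⊆ S') : sg H S' ≤ sg H S := fun _ hx =>
  mem_sg.2 fun i hi => mem_sg.1 hx i (h hi)

theorem sg_le {S : Finset (Fin 3)} {i : Fin 3} (h : i ∈ S) : sg H S ≤ H i := fun _ hx => mem_sg.1 hx i h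

theorem sg_singleton (i : Fin 3) : sg H {i} = H i := by
  ext x
  rw [mem_sg]
  simp

theorem sg_pair (i j : Fin 3) : sg H {i, j} = H i ⊓ H j := by
  ext x
  rw [mem_sg, Subgroup.mem_inf]
  simp

theorem vx_eq_iff {S S' : {S : Finset (Fin 3) // S.Nonempty}} {x y : G} :
    vx H S x = vx H S' y ↔ S = S' ∧ x⁻¹ * y ∈ sg H S.1 := by
  constructor
  · intro h
    have h1 : S = S' := congrArg Sigma.fst h
    subst h1
    refine ⟨rfl, QuotientGroup.eq.1 ?_⟩
    exact eq_of_heq (Sigma.mk.inj_iff.1 h).2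
  · rintro ⟨rfl, h⟩
    exact congrArg (Sigma.mk S) (QuotientGroup.eq.2 h)

theorem exists_vx (v : Vx H) : ∃ x, v = vx H v.1 x := by
  obtain ⟨S, q⟩ := v
  obtain ⟨x, rfl⟩ := QuotientGroup.mk_surjective q
  exact ⟨x, rfl⟩

theorem exists_mem (v : Vx H) : ∃ x, Mem x v := exists_vx v

theorem mem_vx {S : {S : Finset (Fin 3) // S.Nonempty}} {x y : G} : Mem x (vx H S y) ↔ y⁻¹ * x ∈ sg H S.1 :=
  vx_eq_iff.trans ⟨fun h => h.2, fun h => ⟨rfl, h⟩⟩

theorem mem_vx_self (S : {S : Finset (Fin 3) // S.Nonempty}) (x : G) : Mem x (vx H S x) := rfl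

theorem tp_vx (S : {S : Finset (Fin 3) // S.Nonempty}) (x : G) : tp (vx H S x) = S.1 := rfl

theorem kd_vx (S : {S : Finset (Fin 3) // S.Nonempty}) (x : G) : kd (vx H S x) = 3 - S.1.card := rfl

/-- two elements of a coset -/
theorem Mem.div {v : Vx H} {x y : G} (hx : Mem x v) (hy : Mem y v) : x⁻¹ * y ∈ sg H (tp v) := by
  have h : vx H v.1 x = vx H v.1 y := hx.symm.trans hy
  exact (vx_eq_iff.1 h).2

theorem Mem.of_div {v : Vx H} {x y : G} (hx : Mem x v) (h : x⁻¹ * y ∈ sg H (tp v)) : Mem y v := by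
  have h1 : vx H v.1 x = vx H v.1 y := vx_eq_iff.2 ⟨rfl, h⟩
  exact hx.trans h1

/-- vertices of the same type with a common element are equal -/
theorem eq_of_mem {u v : Vx H} {x : G} (h : tp u = tp v) (hu : Mem x u) (hv : Mem x v) : u = v := by
  have h1 : u.1 = v.1 := Subtype.ext h
  rw [hu, hv, h1]

theorem mem_smul {v : Vx H} {x : G} (g : G) : Mem (g * x) (g • v) ↔ Mem x v := by
  obtain ⟨y, hy⟩ := exists_vx v
  rw [hy]
  have h1 : g • vx H v.1 y = vx H v.1 (g * y) := rfl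
  rw [h1, mem_vx, mem_vx]
  have h2 : (g * y)⁻¹ * (g * x) = y⁻¹ * x := by group
  rw [h2]

theorem tp_smul (g : G) (v : Vx H) : tp (g • v) = tp v := rfl

theorem kd_smul (g : G) (v : Vx H) : kd (g • v) = kd v := rfl

theorem smul_eq_iff {v : Vx H} {x : G} (hx : Mem x v) (g : G) : g • v = v ↔ x⁻¹ * g * x ∈ sg H (tp v) := by
  constructor
  · intro h
    have h1 : Mem (g * x) v := by
      have := (mem_smul (v := v) (x := x) g).2 hx
      rwa [h] at this
    have h2 := hx.div h1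
    rwa [← mul_assoc] at h2
  · intro h
    have h1 : Mem (g * x) v := hx.of_div (by rwa [← mul_assoc])
    exact eq_of_mem (tp_smul g v) ((mem_smul g).2 hx) h1

theorem kd_of_tp {u v : Vx H} (h : tp u = tp v) : kd u = kd v := by
  unfold kd
  have h1 : u.1.1 = v.1.1 := h
  rw [h1]

/-- if the coset `u` is contained in `v` -/
theorem mem_of_sub {u v : Vx H} (h : tp v ⊆ tp u) {x : G} (hu : Mem x u) (hv : Mem x v) {y : G} (hy : Mem y u) :
    Mem y v := hv.of_div (sg_anti h (hu.div hy))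

theorem adj_iff {u v : Vx H} (h : tp v ⊂ tp u) : Adj u v ↔ ∀ x, Mem x u → Mem x v := by
  constructor
  · rintro ⟨-, x, hx, hx'⟩ y hy
    exact mem_of_sub h.1 hx hx' hy
  · intro h1
    obtain ⟨x, hx⟩ := exists_mem u
    exact ⟨Or.inr h, x, hx, h1 x hx⟩

theorem kd_lt_of_ssubset {u v : Vx H} (h : tp v ⊂ tp u) : kd u < kd v := kd_ne_of_ssubset h

/-- adjacent vertices of smaller and larger kind -/
theorem Adj.ssub {u v : Vx H} (h : Adj u v) (hk : kd u < kd v) : tp v ⊂ tp u := by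
  rcases h.1 with h1 | h1
  · have := kd_lt_of_ssubset h1
    omega
  · exact h1

theorem card_tp (v : Vx H) : (tp v).card + kd v = 3 := by
  have h1 : (tp v).card ≤ 3 := by
    have := Finset.card_le_univ (tp v)
    rwa [Fintype.card_fin] at this
  unfold kd
  unfold tp at *
  omega

/-- a triangle: a chamber, a hyperedge, a point -/
theorem t3_iff {m : Fin 3 → ℕ} {g e p : Vx H} : T3 (tcx H m) kd g e p ↔
    kd g = 0 ∧ kd e = 1 ∧ kd p = 2 ∧ tp p ⊂ tp e ∧ ∃ x, Mem x g ∧ Mem x e ∧ Mem x p := by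
  constructor
  · rintro ⟨h1, h2, h3, h4, h5, h6⟩
    obtain ⟨x, hx, hx'⟩ := h4.2
    refine ⟨h1, h2, h3, h5.ssub (by omega), x, hx, hx', ?_⟩
    exact (adj_iff (h6.ssub (by omega))).1 h6 x hx
  · rintro ⟨h1, h2, h3, h4, x, hg, he, hp⟩
    have h5 : tp e ⊂ tp g := by
      refine Finset.ssubset_of_subset_of_ssubset (Finset.Subset.refl _) ?_
      rw [Finset.ssubset_iff_subset_ne]
      have c1 := card_tp g
      have c2 := card_tp e
      have c3 : tp g = Finset.univ := Finset.card_eq_iff_eq_univ _ |>.1 (by rw [Fintype.card_fin]; omega)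
      refine ⟨by rw [c3]; exact Finset.subset_univ _, ?_⟩
      intro h
      rw [h] at c2
      omega
    exact ⟨h1, h2, h3, ⟨Or.inr h5, x, hg, he⟩, ⟨Or.inr h4, x, he, hp⟩, Or.inr (h4.trans h5), x, hg, hp⟩

theorem tp_chamber {g : Vx H} (h : kd g = 0) : tp g = Finset.univ := by
  have c1 := card_tp g
  exact Finset.card_eq_iff_eq_univ _ |>.1 (by rw [Fintype.card_fin]; omega)

theorem tp_point {p : Vx H} (h : kd p = 2) : ∃ i, tp p = {i} := by
  have c1 := card_tp p
  exact Finset.card_eq_one.1 (by omega)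

theorem tp_hyper {e : Vx H} (h : kd e = 1) : ∃ i j, i ≠ j ∧ tp e = {i, j} := by
  have c1 := card_tp e
  exact Finset.card_eq_two.1 (by omega)

end Pool.Agent.H34.TG
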