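import Pool.Agent.H34.TG.Api
import Pool.Agent.H34.TG.Bas

/-!
# [H34 TG ART] the triangle of the subgroups `ap M {t i}ᶜ` of an Artin group
-/

set_option autoImplicit false

namespace Pool.Agent.H34.TG

open CoxeterSystem Pool.H8.CDW Pool.Agent.H52.PAG Pool.Agent.H75.INF

variable {B : Type} (M : CoxeterMatrix B)

/-- the subgroup without the generator `t i` -/
def tH (t : Fin 3 → B) (i : Fin 3) : Subgroup (Art M) := ap M ({t i}ᶜ : Set B)

theorem sg_tH (t : Fin 3 → B) (S : Finset (Fin 3)) : sg (tH M t) S = ap M ((t '' (S : Set (Fin 3)))ᶜ : Set B) := by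
  classical
  induction S using Finset.induction_on with
  | empty =>
    rw [Finset.coe_empty, Set.image_empty, Set.compl_empty, ap_univ]
    ext x
    simp [mem_sg]
  | insert i S hi ih =>
    have h1 : sg (tH M t) (insert i S) = tH M t i ⊓ sg (tH M t) S := by
      ext x
      rw [mem_sg, Subgroup.mem_inf, mem_sg]
      simp
    rw [h1, ih]
    unfold tH
    rw [ap_inf]
    congr 1
    rw [Finset.coe_insert, Set.image_insert_eq, ← Set.compl_union, Set.singleton_union]

theorem sg_tH_pair (t : Fin 3 → B) (i j : Fin 3) : sg (tH M t) {i, j} = ap M ({t i, t j}ᶜ : Set B) := by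
  rw [sg_tH]
  congr 1
  simp [Set.image_insert_eq]

/-- the stabilisers are conjugates of subgroups of proper standard parabolic subgroups -/
theorem sg_tH_le (t : Fin 3 → B) {S : Finset (Fin 3)} {i : Fin 3} (hi : i ∈ S) :
    sg (tH M t) S ≤ ap M ({t i}ᶜ : Set B) := sg_le hi

private theorem idx1 {t : Fin 3 → B} (ht : Function.Injective t) (k : B) : ∃ i, t i ≠ k := by
  by_cases h : t 0 = k
  · refine ⟨1, fun h1 => ?_⟩
    have := ht (h.trans h1.symm)
    exact absurd this (by decide)
  · exact ⟨0, h⟩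

private theorem idx2 {t : Fin 3 → B} (ht : Function.Injective t) (k l : B) : ∃ i, t i ≠ k ∧ t i ≠ l := by
  by_contra hcon
  push Not at hcon
  have h : ∀ i : Fin 3, t i = k ∨ t i = l := fun i => by
    by_cases h1 : t i = k
    · exact Or.inl h1
    · exact Or.inr (hcon i h1)
  have key : ∀ {i j : Fin 3} {x : B}, t i = x → t j = x → i = j := fun h1 h2 => ht (h1.trans h2.symm)
  rcases h 0 with h0 | h0 <;> rcases h 1 with h1 | h1 <;> rcases h 2 with h2 | h2
  · exact absurd (key h0 h1) (by decide)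
  · exact absurd (key h0 h1) (by decide)
  · exact absurd (key h0 h2) (by decide)
  · exact absurd (key h1 h2) (by decide)
  · exact absurd (key h1 h2) (by decide)
  · exact absurd (key h0 h2) (by decide)
  · exact absurd (key h0 h1) (by decide)
  · exact absurd (key h0 h1) (by decide)

theorem col3_tH {t : Fin 3 → B} (ht : Function.Injective t) : Col3 (tH M t) := by
  have mem : ∀ (k : B) (i : Fin 3), t i ≠ k → gen M k ∈ tH M t i := fun k i h => gen_mem_ap (fun h1 => h h1.symm)
  refine ⟨?_, ?_⟩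
  · intro x
    have h1 : (⊤ : Subgroup (Art M)) ≤ ⨆ i, tH M t i := by
      rw [← art_closure M, Subgroup.closure_le]
      rintro _ ⟨k, rfl⟩
      obtain ⟨i, hi⟩ := idx1 ht k
      exact Subgroup.mem_iSup_of_mem i (mem k i hi)
    exact h1 (Subgroup.mem_top x)
  · intro Q _ φ hφ
    choose ix hix using idx1 ht
    let f : B → Q := fun k => φ (ix k) ⟨gen M k, mem k _ (hix k)⟩
    have hf : ∀ (k : B) (i : Fin 3) (h : gen M k ∈ tH M t i), φ i ⟨gen M k, h⟩ = f k := fun k i h =>
      hφ i (ix k) (gen M k) h (mem k _ (hix k))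
    have hrel : ∀ i j, M i j ≠ 0 → alt (f i) (f j) (M i j) = alt (f j) (f i) (M i j) := by
      intro k l hkl
      obtain ⟨i, hi, hi'⟩ := idx2 ht k l
      rw [← hf k i (mem k i hi), ← hf l i (mem l i hi'), ← map_alt, ← map_alt]
      congr 1
      apply Subtype.ext
      have e1 := map_alt (tH M t i).subtype ⟨gen M k, mem k i hi⟩ ⟨gen M l, mem l i hi'⟩ (M k l)
      have e2 := map_alt (tH M t i).subtype ⟨gen M l, mem l i hi'⟩ ⟨gen M k, mem k i hi⟩ (M k l)
      exact e1.trans ((gen_rel hkl).trans e2.symm)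
    refine ⟨Pool.Agent.H52.PAG.lift f hrel, ?_⟩
    intro i
    have e : ((Pool.Agent.H52.PAG.lift f hrel).comp (tH M t i).subtype) = φ i := by
      refine MonoidHom.eq_of_eqOn_dense (s := (Subtype.val ⁻¹' (gen M '' ({t i}ᶜ : Set B))))
        (Subgroup.closure_closure_coe_preimage) ?_
      rintro ⟨_, h⟩ ⟨k, hk, rfl⟩
      show (Pool.Agent.H52.PAG.lift f hrel) (gen M k) = φ i ⟨gen M k, h⟩
      rw [lift_gen]
      exact (hf k i h).symm
    exact fun x => DFunLike.congr_fun e x

end Pool.Agent.H34.TG
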