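import Pool.Agent.H71.D2.Cx

/-!
# [H34 TG] Triangles of subgroups: definitions

`G` is a group with three subgroups `H 0`, `H 1`, `H 2`. For a nonempty set `S` of indices `sg H S` is the intersection of the `H i`,
`i ∈ S`. The vertices of the complex `tcx H m` are the pairs of a nonempty `S` and a coset of `sg H S`: chambers
(`S` has three elements), hyperedges (two elements), points (one element). Two vertices are adjacent if one index set is a proper
subset of the other one and the cosets have a common element (so one coset contains the other one); triangles: three pairwise adjacent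
vertices. `m i` is the label of the points of type `{i}`. `Mem x v`: the coset `v` contains `x`.
`Col3 H`: `G` is generated by the three subgroups and is their colimit. `Gir P Q m`: a product `x₁ y₁ x₂ y₂ … x_k y_k`
with `0 < k < m`, `x_r ∈ P \ Q`, `y_r ∈ Q \ P`, is not `1`.
-/

set_option autoImplicit false

namespace Pool.Agent.H34.TG

open Pool.Agent.H54.CX Pool.Agent.H52.T2

variable {G : Type} [Group G]

/-- the intersection of the subgroups `H i`, `i ∈ S` -/
def sg (H : Fin 3 → Subgroup G) (S : Finset (Fin 3)) : Subgroup G := ⨅ i ∈ S, H i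

theorem mem_sg {H : Fin 3 → Subgroup G} {S : Finset (Fin 3)} {x : G} : x ∈ sg H S ↔ ∀ i ∈ S, x ∈ H i := by
  simp only [sg, Subgroup.mem_iInf]

/-- the vertices: cosets -/
abbrev Vx (H : Fin 3 → Subgroup G) : Type := Σ S : {S : Finset (Fin 3) // S.Nonempty}, G ⧸ sg H S.1

variable {H : Fin 3 → Subgroup G}

/-- the coset `x * sg H S` -/
def vx (H : Fin 3 → Subgroup G) (S : {S : Finset (Fin 3) // S.Nonempty}) (x : G) : Vx H := ⟨S, (x : G ⧸ sg H S.1)⟩

/-- the coset `v` contains `x` -/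
def Mem (x : G) (v : Vx H) : Prop := v = vx H v.1 x

/-- the kind: `0` chambers, `1` hyperedges, `2` points -/
def kd (v : Vx H) : ℕ := 3 - v.1.1.card

/-- the type -/
def tp (v : Vx H) : Finset (Fin 3) := v.1.1

/-- the labels of the types: `m i` for `{i}` -/
def mu (m : Fin 3 → ℕ) (S : Finset (Fin 3)) : ℕ := max 2 (∑ i ∈ S, m i)

/-- adjacent vertices -/
def Adj (u v : Vx H) : Prop := (tp u ⊂ tp v ∨ tp v ⊂ tp u) ∧ ∃ x, Mem x u ∧ Mem x v

/-- the group generated by the three subgroups is their colimit -/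
def Col3 (H : Fin 3 → Subgroup G) : Prop := (∀ x : G, x ∈ ⨆ i, H i) ∧
  ∀ (Q : Type) [Group Q] (φ : ∀ i, H i →* Q),
    (∀ (i j : Fin 3) (x : G) (hi : x ∈ H i) (hj : x ∈ H j), φ i ⟨x, hi⟩ = φ j ⟨x, hj⟩) →
    ∃ ψ : G →* Q, ∀ (i : Fin 3) (x : H i), ψ x = φ i x

/-- the product `x 0 * y 0 * x 1 * y 1 * … * x (k - 1) * y (k - 1)` -/
def alp (x y : ℕ → G) : ℕ → G
  | 0 => 1
  | k + 1 => alp x y k * (x k * y k)

/-- the bipartite graph of the cosets of `P` and `Q` has no closed paths of length less than `2 * m` -/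
def Gir (P Q : Subgroup G) (m : ℕ) : Prop :=
  ∀ (x y : ℕ → G) (k : ℕ), 0 < k → k < m → (∀ r < k, x r ∈ P ∧ x r ∉ Q) → (∀ r < k, y r ∈ Q ∧ y r ∉ P) → alp x y k ≠ 1

theorem two_le_mu (m : Fin 3 → ℕ) (S : Finset (Fin 3)) : 2 ≤ mu m S := le_max_left _ _

theorem kd_le (v : Vx H) : kd v ≤ 2 := by
  have h : 0 < v.1.1.card := Finset.card_pos.2 v.1.2
  unfold kd
  omega

theorem kd_ne_of_ssubset {u v : Vx H} (h : tp u ⊂ tp v) : kd v < kd u := by
  have h1 := Finset.card_lt_card h
  have h2 : (tp v).card ≤ 3 := by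
    have := Finset.card_le_univ (tp v)
    rwa [Fintype.card_fin] at this
  have h3 : 0 < (tp u).card := Finset.card_pos.2 u.1.2
  unfold kd
  unfold tp at *
  omega

theorem Adj.kd_ne {u v : Vx H} (h : Adj u v) : kd u ≠ kd v := by
  rcases h.1 with h | h
  · exact (kd_ne_of_ssubset h).ne'
  · exact (kd_ne_of_ssubset h).ne

theorem Adj.symm {u v : Vx H} (h : Adj u v) : Adj v u := ⟨h.1.symm, h.2.imp fun _ h => ⟨h.2, h.1⟩⟩

variable (H) in
/-- the complex of the cosets -/
noncomputable def tcx (m : Fin 3 → ℕ) : Cpx (Vx H) where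
  Edge := Adj
  Tri u v w := Adj u v ∧ Adj v w ∧ Adj u w
  len u v := L2 (kd u) (kd v) (mu m (tp u)) (mu m (tp v))
  ne u v h e := h.kd_ne (by rw [e])
  symm u v h := h.symm
  edge u v w h := h.1
  rot u v w h := ⟨h.2.1, h.2.2.symm, h.1.symm⟩
  swap u v w h := ⟨h.1.symm, h.2.2, h.2.1⟩
  len_symm u v _ := Pool.Agent.H71.D2.L2_comm _ _ _ _
  pos u v _ := Pool.Agent.H71.D2.L2_pos (two_le_mu m _) (two_le_mu m _)
  lt u v w h := Pool.Agent.H71.D2.L2_lt (two_le_mu m _) (two_le_mu m _) (two_le_mu m _) (kd_le u) (kd_le v)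
    (kd_le w) h.1.kd_ne h.2.1.kd_ne h.2.2.kd_ne

end Pool.Agent.H34.TG
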