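import Pool.Agent.H34.TG.Gt
import Pool.Agent.H34.TG.Art

/-!
# [H34 TG GS] the step for the girths in Artin groups

`a`, `b`, `c` are three generators. If `(A_{B \ {a, b}}, A_{B \ {a, c}})` has girth `M b c` and cyclically, and
`1 / M b c + 1 / M a c + 1 / M a b ≤ 1`, then `(A_{B \ b}, A_{B \ c})` has girth `M b c`.
-/

set_option autoImplicit false

namespace Pool.Agent.H34.TG

open CoxeterSystem Pool.H8.CDW Pool.Agent.H52.PAG Pool.Agent.H75.INF

variable {B : Type} (M : CoxeterMatrix B)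

/-- the three generators as a map -/
def tri3 (a b c : B) : Fin 3 → B := ![a, b, c]

/-- the labels of the points -/
def lab3 (a b c : B) : Fin 3 → ℕ := ![M b c, M a c, M a b]

theorem tri3_inj {a b c : B} (hab : a ≠ b) (hbc : b ≠ c) (hac : a ≠ c) : Function.Injective (tri3 a b c) := by
  intro i j h
  fin_cases i <;> fin_cases j <;> first
    | rfl
    | (exfalso; first
        | exact hab h
        | exact hab h.symm
        | exact hbc h
        | exact hbc h.symm
        | exact hac h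
        | exact hac h.symm)

theorem two_le_label {x y : B} (h : x ≠ y) (h0 : M x y ≠ 0) : 2 ≤ M x y := by
  have := M.off_diagonal x y h
  omega

theorem two_le_lab3 {a b c : B} (hab : a ≠ b) (hbc : b ≠ c) (hac : a ≠ c) (h1 : M b c ≠ 0) (h2 : M a c ≠ 0)
    (h3 : M a b ≠ 0) (i : Fin 3) : 2 ≤ lab3 M a b c i := by
  fin_cases i
  · exact two_le_label M hbc h1
  · exact two_le_label M hac h2
  · exact two_le_label M hab h3

theorem sum_lab3 {a b c : B} (hs : (1 : ℝ) / M b c + 1 / M a c + 1 / M a b ≤ 1) :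
    (1 : ℝ) / lab3 M a b c 0 + 1 / lab3 M a b c 1 + 1 / lab3 M a b c 2 ≤ 1 := hs

/-- the three girths give all girths of the links -/
theorem gir_lab3 {a b c : B}
    (ga : Gir (ap M ({a, b}ᶜ : Set B)) (ap M ({a, c}ᶜ : Set B)) (M b c))
    (gb : Gir (ap M ({b, a}ᶜ : Set B)) (ap M ({b, c}ᶜ : Set B)) (M a c))
    (gc : Gir (ap M ({c, a}ᶜ : Set B)) (ap M ({c, b}ᶜ : Set B)) (M a b)) (i j k : Fin 3) (hij : i ≠ j) (hjk : j ≠ k)
    (hik : i ≠ k) :
    Gir (sg (tH M (tri3 a b c)) {i, j}) (sg (tH M (tri3 a b c)) {i, k}) (lab3 M a b c i) := by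
  rw [sg_tH_pair, sg_tH_pair]
  fin_cases i <;> fin_cases j <;> fin_cases k <;> first
    | exact absurd rfl hij
    | exact absurd rfl hjk
    | exact absurd rfl hik
    | exact ga
    | exact gb
    | exact gc
    | exact ga.symm
    | exact gb.symm
    | exact gc.symm

theorem gir_step {a b c : B} (hab : a ≠ b) (hbc : b ≠ c) (hac : a ≠ c) (h1 : M b c ≠ 0) (h2 : M a c ≠ 0)
    (h3 : M a b ≠ 0) (hs : (1 : ℝ) / M b c + 1 / M a c + 1 / M a b ≤ 1)
    (ga : Gir (ap M ({a, b}ᶜ : Set B)) (ap M ({a, c}ᶜ : Set B)) (M b c))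
    (gb : Gir (ap M ({b, a}ᶜ : Set B)) (ap M ({b, c}ᶜ : Set B)) (M a c))
    (gc : Gir (ap M ({c, a}ᶜ : Set B)) (ap M ({c, b}ᶜ : Set B)) (M a b)) :
    Gir (ap M ({b}ᶜ : Set B)) (ap M ({c}ᶜ : Set B)) (M b c) :=
  gir_tri (H := tH M (tri3 a b c)) (col3_tH M (tri3_inj hab hbc hac)) (m := lab3 M a b c)
    (two_le_lab3 M hab hbc hac h1 h2 h3) (sum_lab3 M hs) (gir_lab3 M ga gb gc) (i := 0) (j := 1) (k := 2)
    (by decide) (by decide) (by decide)

end Pool.Agent.H34.TG
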