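import Pool.Agent.H34.TG.Bas
import Pool.Agent.H56.DC.SC

/-!
# [H34 TG SC] the complex of a triangle of subgroups is simply connected

Notation: `X = tcx H m`, `ch a = vx H univ a` (chamber), `pt i a = vx H {i} a` (point), `pp v = Cls.pt X v`, base vertex `o = ch 1`.
(1) `PS = {p : G × Cls X // PC X o (ch p.1) p.2}`. For `h ∈ H i`: `prm i h (a, q) = (a * h, q * pp (pt i a) * pp (ch (a * h)))`. This is a homomorphism
`phi i : H i →* (Equiv.Perm PS)ᵐᵒᵖ`.
(2) `phi i` and `phi j` agree on `H i ⊓ H j`: both paths are homotopic to the path over the hyperedge `vx H {i, j} a`.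
(3) `psi : G →* (Equiv.Perm PS)ᵐᵒᵖ` from the colimit, `cp x = unop (psi x) (1, pp o)`; the first coordinate of `cp x` is `x`.
(4) Independence: `Mem x v`, `Mem y v` imply `cq x * pp v = cq y * pp v`.
(5) Every path class from `o` to `v` is `cq x * pp v` for every element `x` of `v`.
-/

set_option autoImplicit false

namespace Pool.Agent.H34.TG

open Pool.Agent.H54.CX Pool.Agent.H52.T2

variable {G : Type} [Group G] {H : Fin 3 → Subgroup G}

private def uu : {S : Finset (Fin 3) // S.Nonempty} := ⟨Finset.univ, Finset.univ_nonempty⟩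

private def ss (i : Fin 3) : {S : Finset (Fin 3) // S.Nonempty} := ⟨{i}, Finset.singleton_nonempty i⟩

private def s2 (i j : Fin 3) : {S : Finset (Fin 3) // S.Nonempty} := ⟨{i, j}, ⟨i, Finset.mem_insert_self i {j}⟩⟩

private def ch (H : Fin 3 → Subgroup G) (a : G) : Vx H := vx H uu a

private def pt (H : Fin 3 → Subgroup G) (i : Fin 3) (a : G) : Vx H := vx H (ss i) a

private def he (H : Fin 3 → Subgroup G) (i j : Fin 3) (a : G) : Vx H := vx H (s2 i j) a

private theorem pt_mul (i : Fin 3) (a : G) {h : G} (hh : h ∈ H i) : pt H i (a * h) = pt H i a := by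
  refine (vx_eq_iff.2 ⟨rfl, ?_⟩).symm
  rw [inv_mul_cancel_left]
  show h ∈ sg H {i}
  rw [sg_singleton]
  exact hh

private theorem he_mul (i j : Fin 3) (a : G) {h : G} (hi : h ∈ H i) (hj : h ∈ H j) :
    he H i j (a * h) = he H i j a := by
  refine (vx_eq_iff.2 ⟨rfl, ?_⟩).symm
  rw [inv_mul_cancel_left]
  show h ∈ sg H {i, j}
  rw [sg_pair]
  exact ⟨hi, hj⟩

private theorem ss_lt (i : Fin 3) : ({i} : Finset (Fin 3)) ⊂ Finset.univ := by
  revert i
  decide

private theorem s2_lt (i j : Fin 3) : ({i, j} : Finset (Fin 3)) ⊂ Finset.univ := by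
  revert i j
  decide

private theorem ss_s2 {i j : Fin 3} (h : i ≠ j) : ({i} : Finset (Fin 3)) ⊂ {i, j} := by
  revert i j
  decide

private theorem ss_s2' {i j : Fin 3} (h : i ≠ j) : ({j} : Finset (Fin 3)) ⊂ {i, j} := by
  revert i j
  decide

private theorem adj_ch_pt (i : Fin 3) (a : G) : Adj (ch H a) (pt H i a) := ⟨Or.inr (ss_lt i), a, rfl, rfl⟩

private theorem adj_ch_he (i j : Fin 3) (a : G) : Adj (ch H a) (he H i j a) := ⟨Or.inr (s2_lt i j), a, rfl, rfl⟩

private theorem adj_he_pt {i j : Fin 3} (h : i ≠ j) (a : G) : Adj (he H i j a) (pt H i a) :=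
  ⟨Or.inr (ss_s2 h), a, rfl, rfl⟩

private theorem adj_he_pt' {i j : Fin 3} (h : i ≠ j) (a : G) : Adj (he H i j a) (pt H j a) :=
  ⟨Or.inr (ss_s2' h), a, rfl, rfl⟩

private noncomputable def pp (m : Fin 3 → ℕ) (v : Vx H) : Cls (tcx H m) := Cls.pt (tcx H m) v

/-- paths from the base chamber to a chamber -/
private def PS (H : Fin 3 → Subgroup G) (m : Fin 3 → ℕ) : Type :=
  {p : G × Cls (tcx H m) // PC (tcx H m) (ch H 1) (ch H p.1) p.2}

variable {m : Fin 3 → ℕ}

/-- the step over the point `pt i a` -/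
private noncomputable def stp (i : Fin 3) (b a : G) (q : Cls (tcx H m)) : Cls (tcx H m) :=
  q * pp m (pt H i a) * pp m (ch H b)

private theorem stp_pc {i : Fin 3} {a b : G} (h : pt H i b = pt H i a) {q : Cls (tcx H m)}
    (hq : PC (tcx H m) (ch H 1) (ch H a) q) : PC (tcx H m) (ch H 1) (ch H b) (stp i b a q) := by
  refine (hq.step (Or.inr (adj_ch_pt i a))).step (Or.inr ?_)
  rw [← h]
  exact (adj_ch_pt i b).symm

/-- two steps over the same point -/
private theorem stp_stp {i : Fin 3} {a b : G} (c : G) (h : pt H i b = pt H i a) (q : Cls (tcx H m)) :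
    stp i c b (stp i b a q) = stp i c a q := by
  unfold stp
  rw [h]
  have h1 : pp m (pt H i a) * pp m (ch H b) * pp m (pt H i a) = pp m (pt H i a) := by
    rw [← h]
    exact Cls.back (adj_ch_pt i b).symm
  calc q * pp m (pt H i a) * pp m (ch H b) * pp m (pt H i a) * pp m (ch H c)
      = q * (pp m (pt H i a) * pp m (ch H b) * pp m (pt H i a)) * pp m (ch H c) := by
        simp only [mul_assoc]
    _ = q * pp m (pt H i a) * pp m (ch H c) := by rw [h1]

private theorem stp_self (i : Fin 3) {a : G} {q : Cls (tcx H m)}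
    (hq : PC (tcx H m) (ch H 1) (ch H a) q) : stp i a a q = q :=
  hq.step_back (Or.inr (adj_ch_pt i a))

private noncomputable def prf (i : Fin 3) (h : H i) (p : PS H m) : PS H m :=
  ⟨(p.1.1 * (h : G), stp i (p.1.1 * (h : G)) p.1.1 p.1.2), stp_pc (pt_mul i _ h.2) p.2⟩

private theorem prf_one (i : Fin 3) (p : PS H m) : prf i (1 : H i) p = p := by
  obtain ⟨⟨a, q⟩, hq⟩ := p
  apply Subtype.ext
  have e : a * ((1 : H i) : G) = a := by rw [OneMemClass.coe_one, mul_one]
  show (a * ((1 : H i) : G), stp i (a * ((1 : H i) : G)) a q) = (a, q)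
  rw [e, stp_self i hq]

private theorem prf_mul (i : Fin 3) (h h' : H i) (p : PS H m) :
    prf i (h * h') p = prf i h' (prf i h p) := by
  obtain ⟨⟨a, q⟩, hq⟩ := p
  apply Subtype.ext
  have e : a * ((h * h' : H i) : G) = a * h * h' := by
    rw [Subgroup.coe_mul, mul_assoc]
  show (a * ((h * h' : H i) : G), stp i (a * ((h * h' : H i) : G)) a q) =
    (a * h * h', stp i (a * h * h') (a * h) (stp i (a * h) a q))
  rw [e, stp_stp _ (pt_mul i a h.2)]

private noncomputable def prm (i : Fin 3) (h : H i) : Equiv.Perm (PS H m) where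
  toFun := prf i h
  invFun := prf i h⁻¹
  left_inv p := by rw [← prf_mul, mul_inv_cancel, prf_one]
  right_inv p := by rw [← prf_mul, inv_mul_cancel, prf_one]

private noncomputable def phi (H : Fin 3 → Subgroup G) (m : Fin 3 → ℕ) (i : Fin 3) :
    H i →* (Equiv.Perm (PS H m))ᵐᵒᵖ where
  toFun h := MulOpposite.op (prm i h)
  map_one' := by
    apply MulOpposite.unop_injective
    ext1 p
    exact prf_one i p
  map_mul' h h' := by
    apply MulOpposite.unop_injective
    ext1 p
    exact prf_mul i h h' p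

/-- the path over the hyperedge -/
private theorem stp_he {i j k : Fin 3} (hk : k = i ∨ k = j) (hij : i ≠ j) {a x : G} (hi : x ∈ H i) (hj : x ∈ H j)
    {q : Cls (tcx H m)} (hq : PC (tcx H m) (ch H 1) (ch H a) q) :
    stp k (a * x) a q = q * pp m (he H i j a) * pp m (ch H (a * x)) := by
  unfold stp
  have hxk : x ∈ H k := by
    rcases hk with rfl | rfl
    · exact hi
    · exact hj
  have a1 : Adj (he H i j a) (pt H k a) := by
    rcases hk with rfl | rfl
    · exact adj_he_pt hij a
    · exact adj_he_pt' hij a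
  have a2 : Adj (he H i j a) (ch H (a * x)) := by
    rw [← he_mul i j a hi hj]
    exact (adj_ch_he i j (a * x)).symm
  have a3 : Adj (pt H k a) (ch H (a * x)) := by
    rw [← pt_mul k a hxk]
    exact (adj_ch_pt k (a * x)).symm
  have h1 : pp m (ch H a) * pp m (he H i j a) * pp m (pt H k a) = pp m (ch H a) * pp m (pt H k a) :=
    Cls.tri ⟨adj_ch_he i j a, a1, adj_ch_pt k a⟩
  have h2 : pp m (pt H k a) * pp m (he H i j a) * pp m (ch H (a * x)) = pp m (pt H k a) * pp m (ch H (a * x)) :=
    Cls.tri ⟨a1.symm, a2, a3⟩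
  have h3 : pp m (he H i j a) * pp m (pt H k a) * pp m (he H i j a) = pp m (he H i j a) :=
    Cls.back a1
  have h4 : q * pp m (ch H a) = q := hq.mul_pt
  calc q * pp m (pt H k a) * pp m (ch H (a * x))
      = q * pp m (ch H a) * pp m (pt H k a) * pp m (ch H (a * x)) := by rw [h4]
    _ = q * (pp m (ch H a) * pp m (pt H k a)) * pp m (ch H (a * x)) := by simp only [mul_assoc]
    _ = q * (pp m (ch H a) * pp m (he H i j a) * pp m (pt H k a)) * pp m (ch H (a * x)) := by rw [h1]
    _ = q * pp m (ch H a) * pp m (he H i j a) * (pp m (pt H k a) * pp m (ch H (a * x))) := by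
        simp only [mul_assoc]
    _ = q * pp m (he H i j a) * (pp m (pt H k a) * pp m (he H i j a) * pp m (ch H (a * x))) := by
        rw [h2, h4]
    _ = q * (pp m (he H i j a) * pp m (pt H k a) * pp m (he H i j a)) * pp m (ch H (a * x)) := by
        simp only [mul_assoc]
    _ = q * pp m (he H i j a) * pp m (ch H (a * x)) := by rw [h3]

private theorem phi_agree (i j : Fin 3) (x : G) (hi : x ∈ H i) (hj : x ∈ H j) :
    phi H m i ⟨x, hi⟩ = phi H m j ⟨x, hj⟩ := by
  rcases eq_or_ne i j with rfl | hij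
  · rfl
  apply MulOpposite.unop_injective
  ext1 p
  obtain ⟨⟨a, q⟩, hq⟩ := p
  apply Subtype.ext
  show (a * x, stp i (a * x) a q) = (a * x, stp j (a * x) a q)
  rw [stp_he (Or.inl rfl) hij hi hj hq, stp_he (Or.inr rfl) hij hi hj hq]

private theorem exists_psi (h : Col3 H) (m : Fin 3 → ℕ) :
    ∃ ψ : G →* (Equiv.Perm (PS H m))ᵐᵒᵖ, ∀ (i : Fin 3) (x : H i), ψ x = phi H m i x :=
  h.2 _ (phi H m) fun i j x hi hj => phi_agree i j x hi hj

private noncomputable def psi (h : Col3 H) (m : Fin 3 → ℕ) : G →* (Equiv.Perm (PS H m))ᵐᵒᵖ :=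
  (exists_psi h m).choose

private theorem psi_of (h : Col3 H) (m : Fin 3 → ℕ) (i : Fin 3) (x : H i) : psi h m x = phi H m i x :=
  (exists_psi h m).choose_spec i x

private theorem psi_mul_app (h : Col3 H) (m : Fin 3 → ℕ) (x y : G) (p : PS H m) :
    (MulOpposite.unop (psi h m (x * y)) : Equiv.Perm (PS H m)) p =
      (MulOpposite.unop (psi h m y) : Equiv.Perm (PS H m))
        ((MulOpposite.unop (psi h m x) : Equiv.Perm (PS H m)) p) := by
  rw [map_mul]
  rfl

private theorem psi_one_app (h : Col3 H) (m : Fin 3 → ℕ) (p : PS H m) :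
    (MulOpposite.unop (psi h m 1) : Equiv.Perm (PS H m)) p = p := by
  rw [map_one]
  rfl

private theorem psi_fst (h : Col3 H) (m : Fin 3 → ℕ) (g : G) (p : PS H m) :
    ((MulOpposite.unop (psi h m g) : Equiv.Perm (PS H m)) p).1.1 = p.1.1 * g := by
  let K : Subgroup G :=
    { carrier := {g | ∀ p : PS H m, ((MulOpposite.unop (psi h m g) : Equiv.Perm (PS H m)) p).1.1 = p.1.1 * g}
      mul_mem' := by
        intro x y hx hy p
        rw [psi_mul_app, hy, hx, mul_assoc]
      one_mem' := by
        intro p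
        rw [psi_one_app, mul_one]
      inv_mem' := by
        intro x hx p
        have h1 := psi_mul_app h m x⁻¹ x p
        rw [inv_mul_cancel, psi_one_app] at h1
        have h2 := hx ((MulOpposite.unop (psi h m x⁻¹) : Equiv.Perm (PS H m)) p)
        rw [← h1] at h2
        rw [eq_mul_inv_iff_mul_eq]
        exact h2.symm }
  have hK : ⨆ i, H i ≤ K := by
    refine iSup_le fun i x hx p => ?_
    have h1 : psi h m x = phi H m i ⟨x, hx⟩ := psi_of h m i ⟨x, hx⟩
    rw [h1]
    rfl
  exact hK (h.1 g) p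

private noncomputable def cp (h : Col3 H) (m : Fin 3 → ℕ) (x : G) : PS H m :=
  (MulOpposite.unop (psi h m x) : Equiv.Perm (PS H m)) ⟨(1, pp m (ch H 1)), PC.base⟩

private theorem cp_one (h : Col3 H) (m : Fin 3 → ℕ) : cp h m 1 = ⟨(1, pp m (ch H 1)), PC.base⟩ :=
  psi_one_app h m _

private theorem cp_mul (h : Col3 H) (m : Fin 3 → ℕ) (x : G) (i : Fin 3) (y : H i) :
    cp h m (x * y) = prf i y (cp h m x) := by
  rw [cp, psi_mul_app, psi_of]
  rfl

private theorem cp_fst (h : Col3 H) (m : Fin 3 → ℕ) (x : G) : (cp h m x).1.1 = x := by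
  rw [cp, psi_fst]
  exact one_mul x

private noncomputable def cq (h : Col3 H) (m : Fin 3 → ℕ) (x : G) : Cls (tcx H m) := (cp h m x).1.2

private theorem cq_one (h : Col3 H) (m : Fin 3 → ℕ) : cq h m 1 = pp m (ch H 1) := by
  rw [cq, cp_one]

private theorem cq_pc (h : Col3 H) (m : Fin 3 → ℕ) (x : G) :
    PC (tcx H m) (ch H 1) (ch H x) (cq h m x) := by
  have := (cp h m x).2
  rw [cp_fst] at this
  exact this

private theorem cq_mul (h : Col3 H) (m : Fin 3 → ℕ) (x : G) (i : Fin 3) {y : G} (hy : y ∈ H i) :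
    cq h m (x * y) = stp i (x * y) x (cq h m x) := by
  have h1 := cp_mul h m x i ⟨y, hy⟩
  have h2 : cp h m (x * y) = prf i ⟨y, hy⟩ (cp h m x) := h1
  rw [cq, h2]
  show stp i ((cp h m x).1.1 * y) (cp h m x).1.1 (cp h m x).1.2 = _
  rw [cp_fst]
  rfl

/-- the chamber of an element of a vertex is equal or adjacent to the vertex -/
private theorem ch_near {x : G} {v : Vx H} (hx : Mem x v) : v = ch H x ∨ Adj (ch H x) v := by
  by_cases h : tp v = Finset.univ
  · left
    exact eq_of_mem (x := x) h hx rfl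
  · right
    exact ⟨Or.inr (Finset.ssubset_univ_iff.2 h), x, rfl, hx⟩

/-- the point of an element of a vertex is equal or adjacent to the vertex -/
private theorem pt_near {x : G} {v : Vx H} (hx : Mem x v) {i : Fin 3} (hi : i ∈ tp v) :
    v = pt H i x ∨ Adj (pt H i x) v := by
  by_cases h : tp v = {i}
  · left
    exact eq_of_mem (x := x) h hx rfl
  · right
    refine ⟨Or.inl ?_, x, rfl, hx⟩
    show ({i} : Finset (Fin 3)) ⊂ tp v
    refine Finset.ssubset_iff_subset_ne.2 ⟨Finset.singleton_subset_iff.2 hi, fun e => h e.symm⟩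

private theorem cq_indep (h : Col3 H) {x y : G} {v : Vx H} (hx : Mem x v) (hy : Mem y v) :
    cq h m x * pp m v = cq h m y * pp m v := by
  obtain ⟨i, hi⟩ : ∃ i, i ∈ tp v := v.1.2
  have hd : x⁻¹ * y ∈ H i := sg_le hi (hx.div hy)
  obtain ⟨w, rfl⟩ : ∃ w, y = x * w := ⟨x⁻¹ * y, by group⟩
  rw [inv_mul_cancel_left] at hd
  rw [cq_mul h m x i hd]
  unfold stp
  have h0 : cq h m x * pp m (ch H x) = cq h m x := (cq_pc h m x).mul_pt
  have ep := pt_mul (H := H) i x hd
  have a0 : Adj (pt H i x) (ch H (x * w)) := by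
    rw [← ep]
    exact (adj_ch_pt i (x * w)).symm
  -- the point, the chamber of `y` and `v`
  have key1 : pp m (pt H i x) * pp m (ch H (x * w)) * pp m v = pp m (pt H i x) * pp m v := by
    rcases ch_near hy with e | e
    · rw [e, mul_assoc]
      congr 1
      exact Cls.stay _
    · rcases pt_near hx hi with e' | e'
      · rw [e']
        have h1 : pp m (pt H i x) * pp m (ch H (x * w)) * pp m (pt H i x) = pp m (pt H i x) :=
          Cls.back a0
        rw [h1]
        exact (Cls.stay _).symm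
      · exact Cls.tri ⟨a0, e, e'⟩
  -- the chamber of `x`, the point and `v`
  have key2 : cq h m x * pp m (pt H i x) * pp m v = cq h m x * pp m v := by
    rcases pt_near hx hi with e' | e'
    · rw [e', mul_assoc]
      congr 1
      exact Cls.stay _
    · rcases ch_near hx with e | e
      · rw [e, h0]
        exact (cq_pc h m x).step_back (Or.inr (adj_ch_pt i x))
      · have h1 : pp m (ch H x) * pp m (pt H i x) * pp m v = pp m (ch H x) * pp m v :=
          Cls.tri ⟨adj_ch_pt i x, e', e⟩
        calc cq h m x * pp m (pt H i x) * pp m v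
            = cq h m x * pp m (ch H x) * pp m (pt H i x) * pp m v := by rw [h0]
          _ = cq h m x * (pp m (ch H x) * pp m (pt H i x) * pp m v) := by simp only [mul_assoc]
          _ = cq h m x * pp m (ch H x) * pp m v := by rw [h1, ← mul_assoc]
          _ = cq h m x * pp m v := by rw [h0]
  calc cq h m x * pp m v = cq h m x * pp m (pt H i x) * pp m v := key2.symm
    _ = cq h m x * (pp m (pt H i x) * pp m v) := mul_assoc _ _ _
    _ = cq h m x * (pp m (pt H i x) * pp m (ch H (x * w)) * pp m v) := by rw [key1]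
    _ = cq h m x * pp m (pt H i x) * pp m (ch H (x * w)) * pp m v := by simp only [mul_assoc]

private theorem cq_step (h : Col3 H) {x : G} {u v : Vx H} (hu : Mem x u) (hv : Mem x v)
    (hn : (tcx H m).Near u v) : cq h m x * pp m u * pp m v = cq h m x * pp m v := by
  have h0 : cq h m x * pp m (ch H x) = cq h m x := (cq_pc h m x).mul_pt
  rcases hn with hn | hn
  · rw [hn, mul_assoc]
    congr 1
    exact Cls.stay v
  · rcases ch_near hu with rfl | hu
    · rw [h0]
    · rcases ch_near hv with rfl | hv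
      · rw [h0]
        exact (cq_pc h m x).step_back (Or.inr hu)
      · have h1 : pp m (ch H x) * pp m u * pp m v = pp m (ch H x) * pp m v :=
          Cls.tri ⟨hu, hn, hv⟩
        calc cq h m x * pp m u * pp m v = cq h m x * pp m (ch H x) * pp m u * pp m v := by rw [h0]
          _ = cq h m x * (pp m (ch H x) * pp m u * pp m v) := by simp only [mul_assoc]
          _ = cq h m x * pp m (ch H x) * pp m v := by rw [h1, ← mul_assoc]
          _ = cq h m x * pp m v := by rw [h0]

private theorem cq_path (h : Col3 H) {v : Vx H} {q : Cls (tcx H m)} (hp : PC (tcx H m) (ch H 1) v q) :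
    ∀ x, Mem x v → q = cq h m x * pp m v := by
  induction hp with
  | base =>
    intro x hx
    have h1 : Mem (1 : G) (ch H 1) := rfl
    rw [cq_indep h hx h1, cq_one]
    exact (Cls.stay _).symm
  | @step v w q hv hw ih =>
    obtain ⟨x, h1, h2⟩ : ∃ x, Mem x v ∧ Mem x w := by
      rcases hw with rfl | hw
      · obtain ⟨x, hx⟩ := exists_mem v
        exact ⟨x, hx, hx⟩
      · exact hw.2
    intro y hy
    rw [ih x h1]
    show cq h m x * pp m v * pp m w = _
    rw [cq_step h h1 h2 hw, cq_indep h h2 hy]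

theorem tcx_sc (h : Col3 H) (m : Fin 3 → ℕ) : (tcx H m).SC := by
  refine Pool.Agent.H34.BD.sc_of_base (ch H 1) ?_ ?_
  · intro v
    obtain ⟨x, hx⟩ := exists_mem v
    refine ⟨_, (cq_pc h m x).step ?_⟩
    rcases ch_near hx with e | e
    · exact Or.inl e.symm
    · exact Or.inr e
  · intro q hq
    rw [cq_path h hq 1 rfl, cq_one]
    exact Cls.stay _

end Pool.Agent.H34.TG
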