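import Pool.Agent.H34.TG.Wlk
import Pool.Agent.H34.TG.SC
import Pool.Agent.H34.TG.Act
import Pool.Agent.H75.GLV.Main

/-!
# [H34 TG GT] girths in a triangle of subgroups

`tcx_tri`: the chambers of `tcx H m` are triangles, with real angles `a i` at the points of type `{i}`. `gir_tri`: if `G` is the colimit of the triangle of subgroups and
`(sg H {i, j}, sg H {i, k})` has girth `m i`, with `1 / m 0 + 1 / m 1 + 1 / m 2 ≤ 1`, then `(H j, H k)` has girth `m i`.
-/

set_option autoImplicit false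

namespace Pool.Agent.H34.TG

open Pool.Agent.H54.CX Pool.Agent.H52.T2 Pool.Agent.H75.GLV

variable {G : Type} [Group G] {H : Fin 3 → Subgroup G}

/-- the angle of the vertices -/
noncomputable def ang (a : Fin 3 → ℝ) (v : Vx H) : ℝ := ∑ i ∈ tp v, a i

theorem ang_of_tp {a : Fin 3 → ℝ} {v : Vx H} {i : Fin 3} (h : tp v = {i}) : ang a v = a i := by
  unfold ang
  rw [h, Finset.sum_singleton]

private theorem third : ∀ i j : Fin 3, i ≠ j → ∃ k, k ≠ i ∧ k ≠ j := by decide

private theorem all_pairs : ∀ i j k : Fin 3, i ≠ j → k ≠ i → k ≠ j → ∀ S : Finset (Fin 3), S.card = 2 →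
    S = {i, j} ∨ S = {k, i} ∨ S = {k, j} := by decide

private theorem pairs_ne : ∀ i j k : Fin 3, i ≠ j → k ≠ i → k ≠ j →
    ({i, j} : Finset (Fin 3)) ≠ {k, i} ∧ ({i, j} : Finset (Fin 3)) ≠ {k, j} ∧ ({k, i} : Finset (Fin 3)) ≠ {k, j} := by
  decide

theorem t3_mk {m : Fin 3 → ℕ} {i j : Fin 3} {a : G} {g : Vx H} (hg : kd g = 0) (ha : Mem a g) (hij : i ≠ j) :
    T3 (tcx H m) kd g (hv H i j a) (pv H i a) ∧ T3 (tcx H m) kd g (hv H i j a) (pv H j a) :=
  ⟨t3_iff.2 ⟨hg, kd_hv hij a, kd_pv i a, (single_ssub_pair i j hij).1, a, ha, mem_hv i j a, mem_pv i a⟩,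
    t3_iff.2 ⟨hg, kd_hv hij a, kd_pv j a, (single_ssub_pair i j hij).2, a, ha, mem_hv i j a, mem_pv j a⟩⟩

theorem pv_ne {i j : Fin 3} (hij : i ≠ j) (a b : G) : pv H i a ≠ pv H j b := by
  intro h1
  have h2 : ({i} : Finset (Fin 3)) = {j} := congrArg tp h1
  exact hij (Finset.singleton_injective h2)

theorem tcx_tri {m : Fin 3 → ℕ} (hm : ∀ i, 2 ≤ m i) {a : Fin 3 → ℝ} (h1 : ∀ i, (1 : ℝ) / m i ≤ a i)
    (h2 : ∀ i, a i ≤ 1 / 2) (h3 : a 0 + a 1 + a 2 = 1) :
    TriX (tcx H m) kd (fun v => mu m (tp v)) (ang a) where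
  tri g x hg hx hgx := by
    obtain ⟨b, hb⟩ := exists_mem g
    obtain ⟨i, j, hij, hi⟩ := tp_hyper hx
    obtain ⟨k, hki, hkj⟩ := third i j hij
    have hbx : Mem b x := mem_of_chamber hg hgx hb
    have ex : x = hv H i j b := eq_of_mem hi hbx (mem_hv i j b)
    subst ex
    have t1 := t3_mk (m := m) hg hb hij
    have t2 := t3_mk (m := m) hg hb hki
    have t3 := t3_mk (m := m) hg hb hkj
    obtain ⟨n1, n2, n3⟩ := pairs_ne i j k hij hki hkj
    refine ⟨hv H k i b, hv H k j b, pv H k b, pv H i b, pv H j b, ?_⟩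
    refine ⟨fun h => n1 (congrArg tp h), fun h => n2 (congrArg tp h), fun h => n3 (congrArg tp h), pv_ne hki _ _,
      pv_ne hkj _ _, pv_ne hij _ _, t1.1, t1.2, t2.1, t2.2, t3.1, t3.2, ?_⟩
    intro e he hge
    have hbe : Mem b e := mem_of_chamber hg hge hb
    have hc : (tp e).card = 2 := by
      have := card_tp e
      omega
    rcases all_pairs i j k hij hki hkj (tp e) hc with h | h | h
    · exact Or.inl (eq_of_mem h hbe (mem_hv i j b))
    · exact Or.inr (Or.inl (eq_of_mem h hbe (mem_hv k i b)))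
    · exact Or.inr (Or.inr (eq_of_mem h hbe (mem_hv k j b)))
  two e p q r he hp hq hr h1 h2 h3 := by
    obtain ⟨b, hb⟩ := exists_mem e
    obtain ⟨i, j, hij, hi⟩ := tp_hyper he
    rcases two_points hi hij hb hp h1 with a1 | a1 <;> rcases two_points hi hij hb hq h2 with a2 | a2 <;>
      rcases two_points hi hij hb hr h3 with a3 | a3
    · exact Or.inl (a1.trans a2.symm)
    · exact Or.inl (a1.trans a2.symm)
    · exact Or.inr (Or.inl (a1.trans a3.symm))
    · exact Or.inr (Or.inr (a2.trans a3.symm))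
    · exact Or.inr (Or.inr (a2.trans a3.symm))
    · exact Or.inr (Or.inl (a1.trans a3.symm))
    · exact Or.inl (a1.trans a2.symm)
    · exact Or.inl (a1.trans a2.symm)
  sum g x e₁ e₂ p q r h := by
    obtain ⟨b, hb⟩ := exists_mem g
    obtain ⟨i, hi⟩ := tp_point h.e1p.2.2.1
    obtain ⟨j, hj⟩ := tp_point h.xq.2.2.1
    obtain ⟨k, hk⟩ := tp_point h.xr.2.2.1
    have bp : Mem b p := mem_of_chamber h.xq.1 h.e1p.2.2.2.2.2 hb
    have bq : Mem b q := mem_of_chamber h.xq.1 h.xq.2.2.2.2.2 hb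
    have br : Mem b r := mem_of_chamber h.xq.1 h.xr.2.2.2.2.2 hb
    have hij : i ≠ j := fun h5 => h.pq (eq_of_mem (by rw [hi, hj, h5]) bp bq)
    have hjk : j ≠ k := fun h5 => h.qr (eq_of_mem (by rw [hj, hk, h5]) bq br)
    have hik : i ≠ k := fun h5 => h.pr (eq_of_mem (by rw [hi, hk, h5]) bp br)
    rw [ang_of_tp hi, ang_of_tp hj, ang_of_tp hk]
    have h6 : ∑ l : Fin 3, a l = 1 := by
      rw [Fin.sum_univ_three]
      exact h3
    rw [univ_eq i j k hij hjk hik, Finset.sum_insert, Finset.sum_insert, Finset.sum_singleton] at h6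
    · linarith
    · simp only [Finset.mem_singleton]
      exact hjk
    · simp only [Finset.mem_insert, Finset.mem_singleton, not_or]
      exact ⟨hij, hik⟩
  lo p hp := by
    obtain ⟨i, hi⟩ := tp_point hp
    show (1 : ℝ) / (mu m (tp p) : ℕ) ≤ ang a p
    rw [ang_of_tp hi, hi, mu_singleton (hm i)]
    exact h1 i
  hi p hp := by
    obtain ⟨i, hi⟩ := tp_point hp
    rw [ang_of_tp hi]
    exact h2 i

/-- angles -/
theorem exists_ang {m : Fin 3 → ℕ} (hm : ∀ i, 2 ≤ m i) {i j k : Fin 3} (hij : i ≠ j) (hjk : j ≠ k) (hik : i ≠ k)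
    (hs : (1 : ℝ) / m i + 1 / m j + 1 / m k ≤ 1) :
    ∃ a : Fin 3 → ℝ, (∀ l, (1 : ℝ) / m l ≤ a l) ∧ (∀ l, a l ≤ 1 / 2) ∧ a 0 + a 1 + a 2 = 1 ∧ a i = 1 / m i := by
  have half : ∀ l, (1 : ℝ) / m l ≤ 1 / 2 := fun l => by
    have : (2 : ℝ) ≤ m l := by exact_mod_cast hm l
    exact one_div_le_one_div_of_le (by norm_num) this
  obtain ⟨u, hu⟩ : ∃ u : ℝ, u = max (1 / (m j : ℝ)) (1 / 2 - 1 / m i) := ⟨_, rfl⟩
  have u1 : (1 : ℝ) / m j ≤ u := hu ▸ le_max_left _ _
  have u2 : 1 / 2 - (1 : ℝ) / m i ≤ u := hu ▸ le_max_right _ _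
  have pi : (0 : ℝ) ≤ 1 / m i := by positivity
  have u3 : u ≤ 1 / 2 := by
    rw [hu]
    exact max_le (half j) (by linarith)
  have u4 : u ≤ 1 - 1 / m i - 1 / m k := by
    rw [hu]
    refine max_le (by linarith) ?_
    have := half k
    linarith
  refine ⟨fun l => if l = i then 1 / m i else if l = j then u else 1 - 1 / m i - u, ?_, ?_, ?_, ?_⟩
  · intro l
    have hl : l = i ∨ l = j ∨ l = k := by
      have : l ∈ (Finset.univ : Finset (Fin 3)) := Finset.mem_univ l
      rw [univ_eq i j k hij hjk hik] at this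
      simpa only [Finset.mem_insert, Finset.mem_singleton] using this
    rcases hl with rfl | rfl | rfl
    · simp only [if_true]
      exact le_rfl
    · simp only [if_true, if_neg hij.symm]
      exact u1
    · simp only [if_neg hik.symm, if_neg hjk.symm]
      linarith
  · intro l
    dsimp only
    split_ifs with c1 c2
    · exact half i
    · exact u3
    · linarith
  · have h6 : ∑ l : Fin 3, (if l = i then (1 : ℝ) / m i else if l = j then u else 1 - 1 / m i - u) = 1 := by
      rw [univ_eq i j k hij hjk hik, Finset.sum_insert, Finset.sum_insert, Finset.sum_singleton]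
      · simp only [if_true, if_neg hij.symm, if_neg hik.symm, if_neg hjk.symm]
        ring
      · simp only [Finset.mem_singleton]
        exact hjk
      · simp only [Finset.mem_insert, Finset.mem_singleton, not_or]
        exact ⟨hij, hik⟩
    rw [Fin.sum_univ_three] at h6
    exact h6
  · simp only [if_true]

theorem gir_tri (hC : Col3 H) {m : Fin 3 → ℕ} (hm : ∀ i, 2 ≤ m i) (hs : (1 : ℝ) / m 0 + 1 / m 1 + 1 / m 2 ≤ 1)
    (hg : ∀ i j k : Fin 3, i ≠ j → j ≠ k → i ≠ k → Gir (sg H {i, j}) (sg H {i, k}) (m i))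
    {i j k : Fin 3} (hij : i ≠ j) (hjk : j ≠ k) (hik : i ≠ k) : Gir (H j) (H k) (m i) := by
  by_contra hcon
  obtain ⟨K, p, e, hK, hKm, hW⟩ := exists_cw hjk hcon
  obtain ⟨a, a1, a2, a3, a4⟩ := exists_ang hm hij hjk hik (sum_perm hs hij hjk hik)
  have hX : LX (tcx H m) kd (fun v => mu m (tp v)) := (tcx_tc hm hs hg).lx
  have hT := tcx_tri (H := H) hm a1 a2 a3
  have hsum : a j + a k = 1 - 1 / m i := by
    have h6 : ∑ l : Fin 3, a l = 1 := by
      rw [Fin.sum_univ_three]
      exact a3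
    rw [univ_eq i j k hij hjk hik, Finset.sum_insert, Finset.sum_insert, Finset.sum_singleton] at h6
    · linarith
    · simp only [Finset.mem_singleton]
      exact hjk
    · simp only [Finset.mem_insert, Finset.mem_singleton, not_or]
      exact ⟨hij, hik⟩
  have hng := gauss hX (tcx_sc hC m) hT (n := 2 * K) (by omega) p e (fun r _ => hW.pk r) (fun r _ => hW.ek r)
    (fun r _ => hW.l r) (fun r _ => hW.r r) ?_ ?_ ?_ (fun r _ => hW.ne r) ?_
  · have hval : ∀ r, ang a (p (2 * r)) = a k ∧ ang a (p (2 * r + 1)) = a j := fun r =>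
      ⟨ang_of_tp (hW.pe _ (even_two_mul r)), ang_of_tp (hW.po _ (by simp))⟩
    have hsm : ∀ n : ℕ, ∑ r ∈ Finset.range (2 * n), 2 * ang a (p r) = 2 * n * (a j + a k) := by
      intro n
      induction n with
      | zero => simp
      | succ n ih =>
        rw [show 2 * (n + 1) = 2 * n + 1 + 1 by ring, Finset.sum_range_succ, Finset.sum_range_succ, ih, (hval n).1,
          (hval n).2]
        push_cast
        ring
    rw [hsm, hsum] at hng
    have hmi : (0 : ℝ) < m i := by
      have : (2 : ℝ) ≤ m i := by exact_mod_cast hm i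
      linarith
    have h7 : (K : ℝ) < m i := by exact_mod_cast hKm
    push_cast at hng
    have h8 : (K : ℝ) * (1 / m i) < 1 := by
      rw [mul_one_div, div_lt_one hmi]
      exact h7
    nlinarith
  · intro r _ h
    by_cases hr : Even r
    · have h1 := hW.pe r hr
      have h2 := hW.po (r + 1) (by simpa [Nat.even_add_one] using hr)
      rw [← h, h1] at h2
      exact hjk (Finset.singleton_injective h2).symm
    · have h1 := hW.po r hr
      have h2 := hW.pe (r + 1) (by simpa [Nat.even_add_one] using hr)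
      rw [← h, h1] at h2
      exact hjk (Finset.singleton_injective h2)
  · have := hW.pp 0
    rwa [Nat.zero_add] at this
  · have := hW.ep 0
    rwa [Nat.zero_add] at this
  · intro r _ h
    obtain ⟨h1, g, hg1, hg2⟩ := h
    exact no_common (hW.ne r) (by rw [hW.et, hW.et]) hg1.1 hg1.2.2.2.1 hg2.2.2.2.1

end Pool.Agent.H34.TG
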