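import Pool.Agent.H34.TG.Act
import Pool.Agent.H34.TG.Gr

/-!
# [H34 TG GY] galleries at a point and alternating products

`Gy X kd p n f e g g'` (`H52.T2.Defs`): a gallery with `n` hyperedges at the point `p`. `t3_iff` (Bas): `T3 (tcx H m) kd g e p` iff the kinds are 0, 1, 2,
`tp p ⊂ tp e` and the three cosets have a common element. Let `tp p = {i}` and `j`, `k` the other two indices; `P = sg H {i, j}`, `Q = sg H {i, k}`.
A hyperedge at `p` has type `{i, j}` or `{i, k}` (`tp_hyper`, `tp p ⊂ tp e`; or `decide` over `Finset (Fin 3)`). `P ⊓ Q = sg H univ` (`mem_sg`; `sg_pair`). Cosets of `P` (type `{i, j}`).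
`gy_word` (MODEL: `gy_word` in `Pool/Agent/H71/D2/Tc.lean`), by induction on the gallery with the first hyperedge of type `{i, j}`:
there are `a a' : G`, `h : ℕ → G` with `Mem a g`, `Mem a' g'`, `a' = a * (h 0 * h 1 * … * h (n - 1))`, for `r < n`: `h r ∈ P`, `h r ∉ Q` if `r` is even and
`h r ∈ Q`, `h r ∉ P` if `r` is odd; `tp e = {i, j}` if `n` is odd, `{i, k}` if `n` is even; `0 < n`, `T3 g' e p`, `T3 g f p`. Step: `e'` contains `g'` and
`e' ≠ e`, both at `g'` and `p`, so their types are different (same type and a common element: `eq_of_mem`; `a'` is in both, `adj_iff`/`t3_iff`: a chamber of a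
hyperedge is contained in it, `mem_of_sub`); `g''` is in `e'`, choose `a''` with `Mem a'' g''`, `h n = a'⁻¹ * a''` is in the subgroup of `e'`
(`Mem.div`: both `a'`, `a''` are in `e'`) and not in the other one (otherwise it is in `sg H univ` and `g' = g''`: `eq_of_mem`, `tp_chamber`).
(Define the product `h 0 * … * h (n - 1)` by recursion, `pr h (n + 1) = pr h n * h n`; `alp (fun r => h (2 * r)) (fun r => h (2 * r + 1)) k = pr h (2 * k)`.)
`gy_gir`: closed gallery `g = g'`, `f ≠ e`. `n` is even (`n` odd: `f`, `e` have the same type and contain `a`: equal). `a'`, `a` are in the chamber `g`: `b = a⁻¹ * a' ∈ sg H univ` is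
the product; `n = 2 * k`; replace the last factor `y (k - 1)` by `y (k - 1) * b⁻¹` (`∈ Q`, `∉ P`); the product is now `1`, so `k < m i` is impossible (`Gir`).
If the first hyperedge has type `{i, k}` exchange `j` and `k` (`Gir.symm`). `mu_singleton` (Act).
-/

set_option autoImplicit false

namespace Pool.Agent.H34.TG

open Pool.Agent.H54.CX Pool.Agent.H52.T2

variable {G : Type} [Group G] {H : Fin 3 → Subgroup G}

private theorem gy_types : ∀ i j k : Fin 3, i ≠ j → j ≠ k → i ≠ k → ∀ S : Finset (Fin 3), S.card = 2 → i ∈ S →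
    S = {i, j} ∨ S = {i, k} := by
  decide

private theorem gy_fin : ∀ i j k : Fin 3, i ≠ j → j ≠ k → i ≠ k → ∀ l : Fin 3, l = i ∨ l = j ∨ l = k := by
  decide

private theorem gy_univ {i j k : Fin 3} (hij : i ≠ j) (hjk : j ≠ k) (hik : i ≠ k) {x : G} (h1 : x ∈ sg H {i, j})
    (h2 : x ∈ sg H {i, k}) : x ∈ sg H Finset.univ := by
  rw [mem_sg] at h1 h2 ⊢
  intro l _
  rcases gy_fin i j k hij hjk hik l with rfl | rfl | rfl
  · exact h1 _ (Finset.mem_insert_self _ _)
  · exact h1 _ (Finset.mem_insert_of_mem (Finset.mem_singleton_self _))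
  · exact h2 _ (Finset.mem_insert_of_mem (Finset.mem_singleton_self _))

private theorem gy_mem {m : Fin 3 → ℕ} {g e p : Vx H} (h : T3 (tcx H m) kd g e p) {x : G} (hx : Mem x g) : Mem x e := by
  obtain ⟨h1, -, -, -, y, hy, hy', -⟩ := t3_iff.1 h
  refine mem_of_sub ?_ hy hy' hx
  rw [tp_chamber h1]
  exact Finset.subset_univ _

private theorem gy_tp {m : Fin 3 → ℕ} {i j k : Fin 3} (hij : i ≠ j) (hjk : j ≠ k) (hik : i ≠ k) {g e p : Vx H}
    (hp : tp p = {i}) (h : T3 (tcx H m) kd g e p) : tp e = {i, j} ∨ tp e = {i, k} := by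
  obtain ⟨-, h2, -, h4, -⟩ := t3_iff.1 h
  have h5 := card_tp e
  refine gy_types i j k hij hjk hik (tp e) (by omega) ?_
  apply h4.1
  rw [hp]
  exact Finset.mem_singleton_self i

/-- different chambers with elements which differ by an element of `sg H univ` -/
private theorem gy_ne {g g' : Vx H} (hg : kd g = 0) (hg' : kd g' = 0) {a a' : G} (ha : Mem a g) (ha' : Mem a' g')
    (hne : g ≠ g') : a⁻¹ * a' ∉ sg H Finset.univ := by
  intro h
  apply hne
  have h1 : Mem a' g := ha.of_div (by rw [tp_chamber hg]; exact h)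
  exact eq_of_mem (by rw [tp_chamber hg, tp_chamber hg']) h1 ha'

/-- the product of the first `n` elements -/
private def gyp (y : ℕ → G) : ℕ → G
  | 0 => 1
  | n + 1 => gyp y n * y n

private theorem gyp_congr {y y' : ℕ → G} {n : ℕ} (h : ∀ r < n, y r = y' r) : gyp y n = gyp y' n := by
  induction n with
  | zero => rfl
  | succ n ih =>
    show gyp y n * y n = gyp y' n * y' n
    rw [ih fun r hr => h r (by omega), h n (by omega)]

private theorem gyp_alp (y : ℕ → G) (k : ℕ) : alp (fun r => y (2 * r)) (fun r => y (2 * r + 1)) k = gyp y (2 * k) := by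
  induction k with
  | zero => rfl
  | succ k ih =>
    show alp (fun r => y (2 * r)) (fun r => y (2 * r + 1)) k * (y (2 * k) * y (2 * k + 1)) = _
    rw [ih]
    show gyp y (2 * k) * (y (2 * k) * y (2 * k + 1)) = gyp y (2 * k) * y (2 * k) * y (2 * k + 1)
    rw [mul_assoc]

private theorem gy_word {m : Fin 3 → ℕ} {i j k : Fin 3} (hij : i ≠ j) (hjk : j ≠ k) (hik : i ≠ k) {p : Vx H}
    (hp : tp p = {i}) {n : ℕ} {f e g g' : Vx H} (h : Gy (tcx H m) kd p n f e g g') :
    T3 (tcx H m) kd g' e p ∧ T3 (tcx H m) kd g f p ∧ 0 < n ∧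
    (tp f = {i, j} → ∃ (a a' : G) (y : ℕ → G), Mem a g ∧ Mem a' g' ∧
      (∀ r < n, ¬ Odd r → y r ∈ sg H {i, j} ∧ y r ∉ sg H {i, k}) ∧
      (∀ r < n, Odd r → y r ∈ sg H {i, k} ∧ y r ∉ sg H {i, j}) ∧
      a' = a * gyp y n ∧ tp e = if Odd n then {i, j} else {i, k}) := by
  induction h with
  | one e g g' h1 h2 h3 =>
    refine ⟨h2, h1, one_pos, fun hf => ?_⟩
    obtain ⟨a, ha⟩ := exists_mem g
    obtain ⟨a', ha'⟩ := exists_mem g'
    have hk1 : kd g = 0 := (t3_iff.1 h1).1
    have hk2 : kd g' = 0 := (t3_iff.1 h2).1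
    have h4 : a⁻¹ * a' ∈ sg H {i, j} := by
      rw [← hf]
      exact (gy_mem h1 ha).div (gy_mem h2 ha')
    have h5 := gy_ne hk1 hk2 ha ha' h3
    refine ⟨a, a', fun _ => a⁻¹ * a', ha, ha', ?_, ?_, ?_, ?_⟩
    · intro _ _ _
      exact ⟨h4, fun h6 => h5 (gy_univ hij hjk hik h4 h6)⟩
    · intro r hr hr'
      exfalso
      have : r = 0 := by omega
      rw [this] at hr'
      exact absurd hr' (by decide)
    · show a' = a * (1 * (a⁻¹ * a'))
      rw [one_mul, mul_inv_cancel_left]
    · rw [if_pos (by decide)]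
      exact hf
  | step n f e g g' e' g'' h0 hne h1 h2 h3 ih =>
    obtain ⟨ih1, ih2, ih3, ih4⟩ := ih
    refine ⟨h2, ih2, by omega, fun hf => ?_⟩
    obtain ⟨a, a', y, ha, ha', hy1, hy2, haa, he⟩ := ih4 hf
    obtain ⟨a'', ha''⟩ := exists_mem g''
    have hk1 : kd g' = 0 := (t3_iff.1 h1).1
    have hk2 : kd g'' = 0 := (t3_iff.1 h2).1
    have h4 : a'⁻¹ * a'' ∈ sg H (tp e') := (gy_mem h1 ha').div (gy_mem h2 ha'')
    have h5 := gy_ne hk1 hk2 ha' ha'' h3
    have h6 : tp e' ≠ tp e := fun h7 => hne (eq_of_mem h7 (gy_mem h1 ha') (gy_mem ih1 ha'))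
    have h7 := gy_tp hij hjk hik hp h1
    classical
    have hpr : a'' = a * gyp (Function.update y n (a'⁻¹ * a'')) (n + 1) := by
      show a'' = a * (gyp (Function.update y n (a'⁻¹ * a'')) n * Function.update y n (a'⁻¹ * a'') n)
      rw [Function.update_self, gyp_congr (y' := y) (fun r hr => Function.update_of_ne (by omega) _ _), ← mul_assoc,
        ← haa, mul_inv_cancel_left]
    refine ⟨a, a'', Function.update y n (a'⁻¹ * a''), ha, ha'', ?_, ?_, hpr, ?_⟩
    · intro r hr hr'
      rcases eq_or_ne r n with rfl | hrn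
      · rw [if_neg hr'] at he
        have h8 : tp e' = {i, j} := h7.resolve_right fun h9 => h6 (h9.trans he.symm)
        rw [h8] at h4
        rw [Function.update_self]
        exact ⟨h4, fun h9 => h5 (gy_univ hij hjk hik h4 h9)⟩
      · rw [Function.update_of_ne hrn]
        exact hy1 r (by omega) hr'
    · intro r hr hr'
      rcases eq_or_ne r n with rfl | hrn
      · rw [if_pos hr'] at he
        have h8 : tp e' = {i, k} := h7.resolve_left fun h9 => h6 (h9.trans he.symm)
        rw [h8] at h4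
        rw [Function.update_self]
        exact ⟨h4, fun h9 => h5 (gy_univ hij hjk hik h9 h4)⟩
      · rw [Function.update_of_ne hrn]
        exact hy2 r (by omega) hr'
    · by_cases hn : Odd n
      · rw [if_pos hn] at he
        rw [if_neg (by rw [Nat.not_odd_iff_even]; exact hn.add_one)]
        exact h7.resolve_left fun h9 => h6 (h9.trans he.symm)
      · rw [if_neg hn] at he
        rw [if_pos (by rw [Nat.not_odd_iff_even] at hn; exact hn.add_one)]
        exact h7.resolve_right fun h9 => h6 (h9.trans he.symm)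

private theorem gy_key {m : Fin 3 → ℕ} {i j k : Fin 3} (hij : i ≠ j) (hjk : j ≠ k) (hik : i ≠ k)
    (hG : Gir (sg H {i, j}) (sg H {i, k}) (m i)) {p f e g : Vx H} (hp : tp p = {i}) {n : ℕ}
    (h : Gy (tcx H m) kd p n f e g g) (hfe : f ≠ e) (hf : tp f = {i, j}) : 2 * m i ≤ n := by
  obtain ⟨h1, h2, h3, h4⟩ := gy_word hij hjk hik hp h
  obtain ⟨a, a', y, ha, ha', hy1, hy2, haa, he⟩ := h4 hf
  have hkg : kd g = 0 := (t3_iff.1 h1).1
  have hb : gyp y n ∈ sg H Finset.univ := by
    have h5 := ha.div ha'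
    rw [tp_chamber hkg, haa, inv_mul_cancel_left] at h5
    exact h5
  have hev : ¬ Odd n := by
    intro hn
    rw [if_pos hn] at he
    exact hfe (eq_of_mem (hf.trans he.symm) (gy_mem h2 ha) (gy_mem h1 ha))
  rw [Nat.not_odd_iff_even] at hev
  obtain ⟨l, hl⟩ := hev
  obtain ⟨q, rfl⟩ : ∃ q, l = q + 1 := ⟨l - 1, by omega⟩
  have hn : n = 2 * (q + 1) := by omega
  subst hn
  by_contra hcon
  have hbP : gyp y (2 * (q + 1)) ∈ sg H {i, j} := sg_anti (Finset.subset_univ _) hb
  have hbQ : gyp y (2 * (q + 1)) ∈ sg H {i, k} := sg_anti (Finset.subset_univ _) hb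
  refine hG (fun r => y (2 * r))
    (fun r => if r = q then y (2 * q + 1) * (gyp y (2 * (q + 1)))⁻¹ else y (2 * r + 1)) (q + 1) (by omega) (by omega)
    (fun r hr => hy1 (2 * r) (by omega) (by rw [Nat.not_odd_iff_even]; exact even_two_mul r)) (fun r hr => ?_) ?_
  · by_cases hrq : r = q
    · rw [if_pos hrq]
      obtain ⟨h5, h6⟩ := hy2 (2 * q + 1) (by omega) (odd_two_mul_add_one q)
      refine ⟨mul_mem h5 (inv_mem hbQ), fun h7 => h6 ?_⟩
      have h8 := mul_mem h7 hbP
      rwa [inv_mul_cancel_right] at h8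
    · rw [if_neg hrq]
      exact hy2 (2 * r + 1) (by omega) (odd_two_mul_add_one r)
  · show alp (fun r => y (2 * r)) (fun r => if r = q then y (2 * q + 1) * (gyp y (2 * (q + 1)))⁻¹ else y (2 * r + 1)) q *
      (y (2 * q) * (if q = q then y (2 * q + 1) * (gyp y (2 * (q + 1)))⁻¹ else y (2 * q + 1))) = 1
    rw [if_pos rfl, alp_congr (y' := fun r => y (2 * r + 1)) (fun _ _ => rfl) (fun r hr => if_neg (by omega)), gyp_alp,
      ← mul_assoc, ← mul_assoc]
    have h9 : gyp y (2 * (q + 1)) = gyp y (2 * q) * y (2 * q) * y (2 * q + 1) := rfl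
    rw [← h9, mul_inv_cancel]

theorem gy_gir {m : Fin 3 → ℕ} {i j k : Fin 3} (hij : i ≠ j) (hjk : j ≠ k) (hik : i ≠ k) (hm : 2 ≤ m i)
    (hG : Gir (sg H {i, j}) (sg H {i, k}) (m i)) {p f e g : Vx H} (hp : tp p = {i}) {n : ℕ}
    (h : Gy (tcx H m) kd p n f e g g) (hfe : f ≠ e) : 2 * mu m (tp p) ≤ n := by
  rw [hp, mu_singleton hm]
  obtain ⟨-, h2, -, -⟩ := gy_word hij hjk hik hp h
  rcases gy_tp hij hjk hik hp h2 with hf | hf
  · exact gy_key hij hjk hik hG hp h hfe hf
  · exact gy_key hik hjk.symm hij hG.symm hp h hfe hf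

end Pool.Agent.H34.TG
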