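import Pool.Agent.H34.TG.Gr
import Pool.Agent.H75.INF.Vdl

/-!
# [H34 TG RES] transport of the girth along injective homomorphisms
-/

set_option autoImplicit false

namespace Pool.Agent.H34.TG

open CoxeterSystem Pool.H8.CDW Pool.Agent.H52.PAG Pool.Agent.H75.INF

section gen

variable {G G' : Type} [Group G] [Group G']

theorem Gir.map {f : G →* G'} (hf : Function.Injective f) {P Q : Subgroup G} {m : ℕ} (h : Gir P Q m) :
    Gir (P.map f) (Q.map f) m := by
  classical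
  intro x y k h0 h1 hx hy he
  have cx : ∀ r, r < k → ∃ a ∈ P, f a = x r := fun r hr => (hx r hr).1
  have cy : ∀ r, r < k → ∃ a ∈ Q, f a = y r := fun r hr => (hy r hr).1
  obtain ⟨x', hx'⟩ : ∃ x' : ℕ → G, ∀ r < k, x' r ∈ P ∧ f (x' r) = x r :=
    ⟨fun r => if hr : r < k then (cx r hr).choose else 1, fun r hr => by
      dsimp only
      rw [dif_pos hr]
      exact (cx r hr).choose_spec⟩
  obtain ⟨y', hy'⟩ : ∃ y' : ℕ → G, ∀ r < k, y' r ∈ Q ∧ f (y' r) = y r :=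
    ⟨fun r => if hr : r < k then (cy r hr).choose else 1, fun r hr => by
      dsimp only
      rw [dif_pos hr]
      exact (cy r hr).choose_spec⟩
  refine h x' y' k h0 h1 (fun r hr => ⟨(hx' r hr).1, fun hq => (hx r hr).2 ⟨_, hq, (hx' r hr).2⟩⟩)
    (fun r hr => ⟨(hy' r hr).1, fun hq => (hy r hr).2 ⟨_, hq, (hy' r hr).2⟩⟩) (hf ?_)
  rw [alp_map, map_one, ← he]
  exact alp_congr (fun r hr => (hx' r hr).2) (fun r hr => (hy' r hr).2)

theorem Gir.of_map {f : G →* G'} (hf : Function.Injective f) {P Q : Subgroup G} {m : ℕ}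
    (h : Gir (P.map f) (Q.map f) m) : Gir P Q m := by
  intro x y k h0 h1 hx hy he
  have key : ∀ (R : Subgroup G) (a : G), f a ∈ R.map f → a ∈ R := by
    rintro R a ⟨b, hb, hba⟩
    rwa [← hf hba]
  refine h (fun r => f (x r)) (fun r => f (y r)) k h0 h1
    (fun r hr => ⟨⟨_, (hx r hr).1, rfl⟩, fun hq => (hx r hr).2 (key _ _ hq)⟩)
    (fun r hr => ⟨⟨_, (hy r hr).1, rfl⟩, fun hq => (hy r hr).2 (key _ _ hq)⟩) ?_
  rw [← alp_map, he, map_one]

end gen

variable {B : Type} (M : CoxeterMatrix B)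

theorem gir_res {K : Set B} {L L' : Set K} {m : ℕ} (h : Gir (ap (resM M K) L) (ap (resM M K) L') m) :
    Gir (ap M (Subtype.val '' L)) (ap M (Subtype.val '' L')) m := by
  obtain ⟨ι, hi, hg, -⟩ := exists_inc M K
  have key : ∀ L : Set K, (ap (resM M K) L).map ι = ap M (Subtype.val '' L) := by
    intro L
    unfold ap
    rw [MonoidHom.map_closure]
    congr 1
    ext x
    constructor
    · rintro ⟨_, ⟨k, hk, rfl⟩, rfl⟩
      exact ⟨k.1, ⟨k, hk, rfl⟩, (hg k).symm⟩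
    · rintro ⟨_, ⟨k, hk, rfl⟩, rfl⟩
      exact ⟨_, ⟨k, hk, rfl⟩, hg k⟩
  rw [← key, ← key]
  exact h.map hi

/-- the girth in a diagram without the generator `a` -/
theorem gir_res_compl {a b c : B} (hb : b ≠ a) (hc : c ≠ a) {m : ℕ}
    (h : Gir (ap (resM M ({a}ᶜ : Set B)) ({(⟨b, hb⟩ : ({a}ᶜ : Set B))}ᶜ))
      (ap (resM M ({a}ᶜ : Set B)) ({(⟨c, hc⟩ : ({a}ᶜ : Set B))}ᶜ)) m) :
    Gir (ap M ({a, b}ᶜ : Set B)) (ap M ({a, c}ᶜ : Set B)) m := by
  have key : ∀ (b : B) (hb : b ≠ a), Subtype.val '' ({(⟨b, hb⟩ : ({a}ᶜ : Set B))}ᶜ : Set ({a}ᶜ : Set B)) = ({a, b}ᶜ : Set B) := by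
    intro b hb
    ext x
    constructor
    · rintro ⟨y, hy, rfl⟩
      rintro (h1 | h1)
      · exact y.2 h1
      · exact hy (Subtype.ext h1)
    · intro hx
      refine ⟨⟨x, fun h1 => hx (Or.inl h1)⟩, ?_, rfl⟩
      intro h1
      exact hx (Or.inr (congrArg Subtype.val h1))
  have := gir_res M h
  rwa [key, key] at this

end Pool.Agent.H34.TG
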