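import Pool.Agent.H34.TG.Gy

/-!
# [H34 TG TC] the complex of a triangle of subgroups is a typed complex with labels
-/

set_option autoImplicit false

namespace Pool.Agent.H34.TG

open Pool.Agent.H54.CX Pool.Agent.H52.T2

variable {G : Type} [Group G] {H : Fin 3 → Subgroup G}

/-- the index sets of the hyperedges at a point -/
theorem two_types : ∀ i j k : Fin 3, i ≠ j → j ≠ k → i ≠ k → ∀ S : Finset (Fin 3), {i} ⊂ S → S.card = 2 →
    S = {i, j} ∨ S = {i, k} := by decide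

theorem exists_others : ∀ i : Fin 3, ∃ j k : Fin 3, i ≠ j ∧ j ≠ k ∧ i ≠ k := by decide

theorem pair_card : ∀ i j : Fin 3, i ≠ j → ({i, j} : Finset (Fin 3)).card = 2 := by decide

theorem pair_ne : ∀ i j k : Fin 3, i ≠ j → j ≠ k → i ≠ k → ({i, j} : Finset (Fin 3)) ≠ {i, k} := by decide

theorem single_ssub_pair : ∀ i j : Fin 3, i ≠ j → ({i} : Finset (Fin 3)) ⊂ {i, j} ∧ ({j} : Finset (Fin 3)) ⊂ {i, j} := by
  decide

theorem lg_aux : ∀ i j : Fin 3, ∀ S S' : Finset (Fin 3), S.card = 2 → S'.card = 2 → S ≠ S' → {i} ⊂ S → {i} ⊂ S' →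
    {j} ⊂ S → {j} ⊂ S' → i = j := by decide

theorem k3_aux : ∀ i j k : Fin 3, i ≠ j → j ≠ k → i ≠ k → ∀ S : Finset (Fin 3), {i} ⊂ S → S.card = 2 →
    S = {i, j} ∨ S = {i, k} := two_types

/-- the chamber, hyperedge, point which contain `x` -/
def cv (H : Fin 3 → Subgroup G) (x : G) : Vx H := vx H ⟨Finset.univ, Finset.univ_nonempty⟩ x

def hv (H : Fin 3 → Subgroup G) (i j : Fin 3) (x : G) : Vx H := vx H ⟨{i, j}, Finset.insert_nonempty _ _⟩ x

def pv (H : Fin 3 → Subgroup G) (i : Fin 3) (x : G) : Vx H := vx H ⟨{i}, Finset.singleton_nonempty _⟩ x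

theorem kd_cv (x : G) : kd (cv H x) = 0 := rfl

theorem kd_hv {i j : Fin 3} (hij : i ≠ j) (x : G) : kd (hv H i j x) = 1 := by
  show 3 - ({i, j} : Finset (Fin 3)).card = 1
  rw [pair_card i j hij]

theorem kd_pv (i : Fin 3) (x : G) : kd (pv H i x) = 2 := rfl

theorem tp_cv (x : G) : tp (cv H x) = Finset.univ := rfl

theorem tp_hv (i j : Fin 3) (x : G) : tp (hv H i j x) = {i, j} := rfl

theorem tp_pv (i : Fin 3) (x : G) : tp (pv H i x) = {i} := rfl

theorem mem_cv (x : G) : Mem x (cv H x) := rfl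

theorem mem_hv (i j : Fin 3) (x : G) : Mem x (hv H i j x) := rfl

theorem mem_pv (i : Fin 3) (x : G) : Mem x (pv H i x) := rfl

/-- a chamber is contained in its neighbours -/
theorem mem_of_chamber {g v : Vx H} (hg : kd g = 0) (h : Adj g v) {x : G} (hx : Mem x g) : Mem x v := by
  have h1 := h.kd_ne
  exact (adj_iff (h.ssub (by omega))).1 h x hx

theorem adj_chamber {g v : Vx H} (hg : kd g = 0) (hv : kd v ≠ 0) {x : G} (hx : Mem x g) (hx' : Mem x v) : Adj g v := by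
  refine ⟨Or.inr ?_, x, hx, hx'⟩
  rw [tp_chamber hg, Finset.ssubset_univ_iff]
  intro h
  apply hv
  have := card_tp v
  rw [h, Finset.card_univ, Fintype.card_fin] at this
  omega

theorem tri_chamber {m : Fin 3 → ℕ} {g e p : Vx H} (hg : kd g = 0) (he : kd e = 1) (hp : kd p = 2)
    (h : tp p ⊂ tp e) {x : G} (h1 : Mem x g) (h2 : Mem x e) (h3 : Mem x p) : (tcx H m).Tri g e p :=
  (t3_iff.2 ⟨hg, he, hp, h, x, h1, h2, h3⟩).2.2.2

/-- the hyperedges at a point of a chamber -/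
theorem t3_hyper {m : Fin 3 → ℕ} {g e p : Vx H} {i j k : Fin 3} (hij : i ≠ j) (hjk : j ≠ k) (hik : i ≠ k)
    (hp : tp p = {i}) (h : T3 (tcx H m) kd g e p) {x : G} (hx : Mem x g) : e = hv H i j x ∨ e = hv H i k x := by
  have hg := h.1
  have he := h.2.1
  obtain ⟨-, -, -, h4, -⟩ := t3_iff.1 h
  have hxe : Mem x e := mem_of_chamber hg h.2.2.2.1 hx
  have hc : (tp e).card = 2 := by
    have := card_tp e
    omega
  rw [hp] at h4
  rcases two_types i j k hij hjk hik _ h4 hc with h5 | h5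
  · exact Or.inl (eq_of_mem h5 hxe (mem_hv i j x))
  · exact Or.inr (eq_of_mem h5 hxe (mem_hv i k x))

theorem univ_eq : ∀ i j k : Fin 3, i ≠ j → j ≠ k → i ≠ k → (Finset.univ : Finset (Fin 3)) = {i, j, k} := by decide

theorem sum_perm {m : Fin 3 → ℕ} (hs : (1 : ℝ) / m 0 + 1 / m 1 + 1 / m 2 ≤ 1) {i j k : Fin 3} (hij : i ≠ j) (hjk : j ≠ k)
    (hik : i ≠ k) : (1 : ℝ) / m i + 1 / m j + 1 / m k ≤ 1 := by
  have h1 : ∑ l : Fin 3, (1 : ℝ) / m l ≤ 1 := by
    rw [Fin.sum_univ_three]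
    exact hs
  rw [univ_eq i j k hij hjk hik, Finset.sum_insert, Finset.sum_insert, Finset.sum_singleton] at h1
  · linarith
  · simp only [Finset.mem_singleton]
    exact hjk
  · simp only [Finset.mem_insert, Finset.mem_singleton, not_or]
    exact ⟨hij, hik⟩

theorem tcx_tc {m : Fin 3 → ℕ} (hm : ∀ i, 2 ≤ m i) (hs : (1 : ℝ) / m 0 + 1 / m 1 + 1 / m 2 ≤ 1)
    (hg : ∀ i j k : Fin 3, i ≠ j → j ≠ k → i ≠ k → Gir (sg H {i, j}) (sg H {i, k}) (m i)) :
    TC2 (tcx H m) kd tp (mu m) where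
  kd_le := kd_le
  kd_ne _ _ h := Adj.kd_ne h
  kd_τ _ _ h := kd_of_tp h
  len _ _ _ := rfl
  fill g e p hg he hp h1 h2 := by
    obtain ⟨x, hx⟩ := exists_mem g
    have h3 : Mem x e := mem_of_chamber hg h1 hx
    have h4 : tp p ⊂ tp e := Adj.ssub h2 (by omega)
    exact tri_chamber hg he hp h4 hx h3 ((adj_iff h4).1 h2 x h3)
  cell e p he hp _ := by
    obtain ⟨x, hx⟩ := exists_mem e
    exact ⟨cv H x, kd_cv x, adj_chamber (kd_cv x) (by omega) (mem_cv x) hx⟩
  inj g x y hg hx hy hxy := by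
    obtain ⟨a, ha⟩ := exists_mem g
    exact eq_of_mem hxy (mem_of_chamber hg hx ha) (mem_of_chamber hg hy ha)
  two g p hg hp h := by
    obtain ⟨a, ha⟩ := exists_mem g
    obtain ⟨i, hi⟩ := tp_point hp
    obtain ⟨j, k, hij, hjk, hik⟩ := exists_others i
    have hap : Mem a p := mem_of_chamber hg h ha
    have t1 : (tcx H m).Tri g (hv H i j a) p := tri_chamber hg (kd_hv hij a) hp
      (by rw [hi, tp_hv]; exact (single_ssub_pair i j hij).1) ha (mem_hv i j a) hap
    have t2 : (tcx H m).Tri g (hv H i k a) p := tri_chamber hg (kd_hv hik a) hp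
      (by rw [hi, tp_hv]; exact (single_ssub_pair i k hik).1) ha (mem_hv i k a) hap
    refine ⟨hv H i j a, hv H i k a, ?_, kd_hv hij a, kd_hv hik a, t1, t2, ?_⟩
    · intro h1
      exact pair_ne i j k hij hjk hik (congrArg tp h1)
    · intro x hx
      have k1 := hx.1.kd_ne
      have k2 := hx.2.1.kd_ne
      have k3 := kd_le x
      exact t3_hyper hij hjk hik hi (⟨hg, by omega, hp, hx⟩ : T3 (tcx H m) kd g x p) ha
  pts g e hg he h := by
    obtain ⟨a, ha⟩ := exists_mem g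
    obtain ⟨i, j, hij, hi⟩ := tp_hyper he
    have hae : Mem a e := mem_of_chamber hg h ha
    refine ⟨pv H i a, pv H j a, ?_, kd_pv i a, kd_pv j a, ?_, ?_⟩
    · intro h1
      have h2 : ({i} : Finset (Fin 3)) = {j} := congrArg tp h1
      exact hij (Finset.singleton_injective h2)
    · exact tri_chamber hg he (kd_pv i a) (by rw [hi, tp_pv]; exact (single_ssub_pair i j hij).1) ha hae (mem_pv i a)
    · exact tri_chamber hg he (kd_pv j a) (by rw [hi, tp_pv]; exact (single_ssub_pair i j hij).2) ha hae (mem_pv j a)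
  lg g e e' p q hg he he' hp hq hne h1 h2 h3 h4 := by
    obtain ⟨a, ha⟩ := exists_mem g
    obtain ⟨i, hi⟩ := tp_point hp
    obtain ⟨j, hj⟩ := tp_point hq
    have c1 := card_tp e
    have c2 := card_tp e'
    have e1 : tp e ≠ tp e' := fun h5 => hne (eq_of_mem h5 (mem_of_chamber hg h1.1 ha) (mem_of_chamber hg h2.1 ha))
    have s1 := (t3_iff.1 (⟨hg, he, hp, h1⟩ : T3 (tcx H m) kd g e p)).2.2.2.1
    have s2 := (t3_iff.1 (⟨hg, he', hp, h2⟩ : T3 (tcx H m) kd g e' p)).2.2.2.1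
    have s3 := (t3_iff.1 (⟨hg, he, hq, h3⟩ : T3 (tcx H m) kd g e q)).2.2.2.1
    have s4 := (t3_iff.1 (⟨hg, he', hq, h4⟩ : T3 (tcx H m) kd g e' q)).2.2.2.1
    rw [hi] at s1 s2
    rw [hj] at s3 s4
    have hij := lg_aux i j (tp e) (tp e') (by omega) (by omega) e1 s1 s2 s3 s4
    refine eq_of_mem (by rw [hi, hj, hij]) (mem_of_chamber hg h1.2.2 ha) (mem_of_chamber hg h3.2.2 ha)
  mu p _ := two_le_mu m _
  k3 g e₁ e₂ e₃ p₁ p₂ p₃ h1 h2 h3 h4 h5 h6 h12 h23 h31 := by
    obtain ⟨a, ha⟩ := exists_mem g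
    obtain ⟨i, hi⟩ := tp_point h1.2.2.1
    obtain ⟨j, hj⟩ := tp_point h3.2.2.1
    obtain ⟨k, hk⟩ := tp_point h5.2.2.1
    -- three hyperedges of `g` have no common point
    have key : ∀ (l : Fin 3) (x y z u v w : Vx H), T3 (tcx H m) kd g x u → T3 (tcx H m) kd g y v →
        T3 (tcx H m) kd g z w → tp u = {l} → tp v = {l} → tp w = {l} → x ≠ y → y ≠ z → z ≠ x → False := by
      intro l x y z u v w t1 t2 t3 hu hv' hw hxy hyz hzx
      obtain ⟨r, s, hlr, hrs, hls⟩ := exists_others l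
      rcases t3_hyper hlr hrs hls hu t1 ha with a1 | a1 <;> rcases t3_hyper hlr hrs hls hv' t2 ha with a2 | a2 <;>
        rcases t3_hyper hlr hrs hls hw t3 ha with a3 | a3
      · exact hxy (a1.trans a2.symm)
      · exact hxy (a1.trans a2.symm)
      · exact hzx (a3.trans a1.symm)
      · exact hyz (a2.trans a3.symm)
      · exact hyz (a2.trans a3.symm)
      · exact hzx (a3.trans a1.symm)
      · exact hxy (a1.trans a2.symm)
      · exact hxy (a1.trans a2.symm)
    have hij : i ≠ j := fun h => by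
      subst h
      exact key i e₁ e₂ e₃ p₁ p₂ p₂ h1 h3 h4 hi hj hj h12 h23 h31
    have hjk : j ≠ k := fun h => by
      subst h
      exact key j e₂ e₃ e₁ p₂ p₃ p₃ h3 h5 h6 hj hk hk h23 h31 h12
    have hik : i ≠ k := fun h => by
      subst h
      exact key i e₁ e₂ e₃ p₁ p₁ p₃ h1 h2 h5 hi hi hk h12 h23 h31
    rw [hi, hj, hk, mu_singleton (hm i), mu_singleton (hm j), mu_singleton (hm k)]
    exact sum_perm hs hij hjk hik
  gir p n f e g h hfe := by
    have hp : kd p = 2 := by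
      cases h with
      | one _ _ _ h1 _ _ => exact h1.2.2.1
      | step _ _ _ _ _ _ _ _ _ h1 _ _ => exact h1.2.2.1
    obtain ⟨i, hi⟩ := tp_point hp
    obtain ⟨j, k, hij, hjk, hik⟩ := exists_others i
    exact gy_gir hij hjk hik (hm i) (hg i j k hij hjk hik) hi h hfe

end Pool.Agent.H34.TG
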