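import Pool.Agent.H34.TG.Tc

/-!
# [H34 TG WLK] products and closed walks

`CW H b c k p e`: a closed walk with `2 * k` hyperedges `e r` of type `{b, c}` and points `p r`, `p (r + 1)` on `e r`, alternately of type `{c}` (`r` even) and
`{b}` (`r` odd), consecutive hyperedges are different; all indices in `ℕ`, periodic. A product `x 0 * y 0 * … = 1` as in `Gir (H b) (H c)` gives a closed walk.
-/

set_option autoImplicit false

namespace Pool.Agent.H34.TG

open Pool.Agent.H54.CX Pool.Agent.H52.T2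

variable {G : Type} [Group G] {H : Fin 3 → Subgroup G}

/-- closed walks of hyperedges of type `{b, c}` -/
structure CW (H : Fin 3 → Subgroup G) (b c : Fin 3) (k : ℕ) (p e : ℕ → Vx H) : Prop where
  pk : ∀ r, kd (p r) = 2
  pe : ∀ r, Even r → tp (p r) = {c}
  po : ∀ r, ¬ Even r → tp (p r) = {b}
  ek : ∀ r, kd (e r) = 1
  et : ∀ r, tp (e r) = {b, c}
  l : ∀ r, Adj (e r) (p r)
  r : ∀ r, Adj (e r) (p (r + 1))
  ne : ∀ r, e r ≠ e (r + 1)
  pp : ∀ r, p (r + 2 * k) = p r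
  ep : ∀ r, e (r + 2 * k) = e r

theorem alp_add (x y : ℕ → G) (k r : ℕ) :
    alp x y (k + r) = alp x y k * alp (fun s => x (k + s)) (fun s => y (k + s)) r := by
  induction r with
  | zero => show alp x y k = alp x y k * 1; rw [mul_one]
  | succ r ih =>
    show alp x y (k + r) * (x (k + r) * y (k + r)) = alp x y k * (alp _ _ r * (x (k + r) * y (k + r)))
    rw [ih, mul_assoc]

theorem cw_of_alp {b c : Fin 3} (hbc : b ≠ c) {x y : ℕ → G} {k : ℕ} (hk : 0 < k)
    (hx : ∀ r < k, x r ∈ H b ∧ x r ∉ H c) (hy : ∀ r < k, y r ∈ H c ∧ y r ∉ H b) (h : alp x y k = 1) :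
    ∃ p e : ℕ → Vx H, CW H b c k p e := by
  obtain ⟨X, hX⟩ : ∃ X : ℕ → G, X = fun r => x (r % k) := ⟨_, rfl⟩
  obtain ⟨Y, hY⟩ : ∃ Y : ℕ → G, Y = fun r => y (r % k) := ⟨_, rfl⟩
  have mX : ∀ r, X r ∈ H b ∧ X r ∉ H c := fun r => by rw [hX]; exact hx _ (Nat.mod_lt _ hk)
  have mY : ∀ r, Y r ∈ H c ∧ Y r ∉ H b := fun r => by rw [hY]; exact hy _ (Nat.mod_lt _ hk)
  have pX : ∀ r, X (r + k) = X r := fun r => by rw [hX]; show x ((r + k) % k) = x (r % k); rw [Nat.add_mod_right]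
  have pY : ∀ r, Y (r + k) = Y r := fun r => by rw [hY]; show y ((r + k) % k) = y (r % k); rw [Nat.add_mod_right]
  have hXY : alp X Y k = 1 := by
    rw [← h]
    refine alp_congr (fun r hr => ?_) (fun r hr => ?_)
    · rw [hX]; show x (r % k) = x r; rw [Nat.mod_eq_of_lt hr]
    · rw [hY]; show y (r % k) = y r; rw [Nat.mod_eq_of_lt hr]
  obtain ⟨g, hg⟩ : ∃ g : ℕ → G, g = alp X Y := ⟨_, rfl⟩
  have g1 : ∀ s, g (s + 1) = g s * (X s * Y s) := fun s => by rw [hg]; rfl
  have gp : ∀ s, g (s + k) = g s := by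
    intro s
    rw [hg, Nat.add_comm, alp_add, hXY, one_mul]
    refine alp_congr (fun r _ => ?_) (fun r _ => ?_)
    · show X (k + r) = X r; rw [Nat.add_comm, pX]
    · show Y (k + r) = Y r; rw [Nat.add_comm, pY]
  obtain ⟨e, he⟩ : ∃ e : ℕ → Vx H, e = fun r => if Even r then hv H b c (g (r / 2)) else hv H b c (g (r / 2) * X (r / 2)) := ⟨_, rfl⟩
  obtain ⟨p, hp⟩ : ∃ p : ℕ → Vx H, p = fun r => if Even r then pv H c (g (r / 2)) else pv H b (g (r / 2)) := ⟨_, rfl⟩
  have e0 : ∀ s, e (2 * s) = hv H b c (g s) := fun s => by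
    rw [he]; show (if Even (2 * s) then _ else _) = _
    rw [if_pos (even_two_mul s), Nat.mul_div_cancel_left _ two_pos]
  have e1 : ∀ s, e (2 * s + 1) = hv H b c (g s * X s) := fun s => by
    rw [he]; show (if Even (2 * s + 1) then _ else _) = _
    rw [if_neg (by simp), show (2 * s + 1) / 2 = s by omega]
  have p0 : ∀ s, p (2 * s) = pv H c (g s) := fun s => by
    rw [hp]; show (if Even (2 * s) then _ else _) = _
    rw [if_pos (even_two_mul s), Nat.mul_div_cancel_left _ two_pos]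
  have p1 : ∀ s, p (2 * s + 1) = pv H b (g s) := fun s => by
    rw [hp]; show (if Even (2 * s + 1) then _ else _) = _
    rw [if_neg (by simp), show (2 * s + 1) / 2 = s by omega]
  have hpar : ∀ r : ℕ, ∃ s, r = 2 * s ∨ r = 2 * s + 1 := fun r => ⟨r / 2, by omega⟩
  have sb := (single_ssub_pair b c hbc).1
  have sc := (single_ssub_pair b c hbc).2
  refine ⟨p, e, ?_, ?_, ?_, ?_, ?_, ?_, ?_, ?_, ?_, ?_⟩
  · intro r
    obtain ⟨s, rfl | rfl⟩ := hpar r
    · rw [p0]; rfl
    · rw [p1]; rfl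
  · intro r hr
    obtain ⟨s, rfl | rfl⟩ := hpar r
    · rw [p0]; rfl
    · exact absurd hr (by simp)
  · intro r hr
    obtain ⟨s, rfl | rfl⟩ := hpar r
    · exact absurd (even_two_mul s) hr
    · rw [p1]; rfl
  · intro r
    obtain ⟨s, rfl | rfl⟩ := hpar r
    · rw [e0]; exact kd_hv hbc _
    · rw [e1]; exact kd_hv hbc _
  · intro r
    obtain ⟨s, rfl | rfl⟩ := hpar r
    · rw [e0]; rfl
    · rw [e1]; rfl
  · intro r
    obtain ⟨s, rfl | rfl⟩ := hpar r
    · rw [e0, p0]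
      exact ⟨Or.inr sc, g s, mem_hv _ _ _, mem_pv _ _⟩
    · rw [e1, p1]
      refine ⟨Or.inr sb, g s * X s, mem_hv _ _ _, ?_⟩
      refine mem_vx.2 ?_
      rw [inv_mul_cancel_left]
      show X s ∈ sg H {b}
      rw [sg_singleton]
      exact (mX s).1
  · intro r
    obtain ⟨s, rfl | rfl⟩ := hpar r
    · rw [e0, p1]
      exact ⟨Or.inr sb, g s, mem_hv _ _ _, mem_pv _ _⟩
    · rw [e1, show 2 * s + 1 + 1 = 2 * (s + 1) by ring, p0]
      refine ⟨Or.inr sc, g s * X s, mem_hv _ _ _, ?_⟩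
      refine mem_vx.2 ?_
      show (g (s + 1))⁻¹ * (g s * X s) ∈ sg H {c}
      rw [g1, sg_singleton]
      have : (g s * (X s * Y s))⁻¹ * (g s * X s) = (Y s)⁻¹ := by group
      rw [this]
      exact inv_mem (mY s).1
  · intro r h1
    obtain ⟨s, rfl | rfl⟩ := hpar r
    · rw [e0, e1] at h1
      have h2 := (vx_eq_iff.1 h1).2
      rw [inv_mul_cancel_left] at h2
      exact (mX s).2 (mem_sg.1 h2 c (by simp))
    · rw [e1, show 2 * s + 1 + 1 = 2 * (s + 1) by ring, e0, g1, ← mul_assoc (g s) (X s) (Y s)] at h1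
      have h2 := (vx_eq_iff.1 h1).2
      rw [inv_mul_cancel_left] at h2
      exact (mY s).2 (mem_sg.1 h2 b (by simp))
  · intro r
    obtain ⟨s, rfl | rfl⟩ := hpar r
    · rw [show 2 * s + 2 * k = 2 * (s + k) by ring, p0, p0, gp]
    · rw [show 2 * s + 1 + 2 * k = 2 * (s + k) + 1 by ring, p1, p1, gp]
  · intro r
    obtain ⟨s, rfl | rfl⟩ := hpar r
    · rw [show 2 * s + 2 * k = 2 * (s + k) by ring, e0, e0, gp]
    · rw [show 2 * s + 1 + 2 * k = 2 * (s + k) + 1 by ring, e1, e1, gp, pX]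

/-- a short product gives a short closed walk -/
theorem exists_cw {b c : Fin 3} (hbc : b ≠ c) {M : ℕ} (h : ¬ Gir (H b) (H c) M) :
    ∃ (k : ℕ) (p e : ℕ → Vx H), 0 < k ∧ k < M ∧ CW H b c k p e := by
  unfold Gir at h
  push Not at h
  obtain ⟨x, y, k, h0, h1, hx, hy, h2⟩ := h
  obtain ⟨p, e, h3⟩ := cw_of_alp hbc h0 hx hy h2
  exact ⟨k, p, e, h0, h1, h3⟩

/-- different hyperedges of the same type have no common chamber -/
theorem no_common {u v g : Vx H} (huv : u ≠ v) (ht : tp u = tp v) (hg : kd g = 0) (h1 : Adj g u) (h2 : Adj g v) : False := by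
  obtain ⟨x, hx⟩ := exists_mem g
  exact huv (eq_of_mem ht (mem_of_chamber hg h1 hx) (mem_of_chamber hg h2 hx))

/-- a hyperedge has exactly two points -/
theorem two_points {e : Vx H} {i j : Fin 3} (he : tp e = {i, j}) (hij : i ≠ j) {x : G} (hx : Mem x e) {p : Vx H}
    (hp : kd p = 2) (h : Adj e p) : p = pv H i x ∨ p = pv H j x := by
  have hke : kd e = 1 := by
    have h1 := card_tp e
    rw [he, pair_card i j hij] at h1
    omega
  have h1 : tp p ⊂ tp e := h.ssub (by omega)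
  have h2 : Mem x p := (adj_iff h1).1 h x hx
  obtain ⟨l, hl⟩ := tp_point hp
  rw [hl, he] at h1
  have h3 : l ∈ ({i, j} : Finset (Fin 3)) := h1.1 (Finset.mem_singleton_self l)
  rw [Finset.mem_insert, Finset.mem_singleton] at h3
  rcases h3 with rfl | rfl
  · exact Or.inl (eq_of_mem hl h2 (mem_pv _ _))
  · exact Or.inr (eq_of_mem hl h2 (mem_pv _ _))

end Pool.Agent.H34.TG
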